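import Pool.Agent.W19.FS.Ub2

/-!
# FS-P0: the hermitian pairing is a density
-/

open scoped Manifold ContDiff Topology
open MeasureTheory

noncomputable section

namespace Pool.Agent.W19.FS.P0

open Pool.Agent.W491.FS Pool.Agent.W19.FS.P3 Pool.Agent.W19.FS.Ub2

universe u

section det

variable {n : ℕ} {X : Type u} [TopologicalSpace X] [ChartedSpace (CN n) X]

/-- the real determinant of a transition map -/
theorem det_real [IsManifold 𝓘(ℂ, CN n) ω X] (c c' : atlas (CN n) X) {y : CN n}
    (hy : y ∈ (c.1.symm.trans c'.1).source) :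
    ∃ L : CN n →ₗ[ℂ] CN n, (∀ v, fderiv ℝ (c.1.symm.trans c'.1) y v = L v) ∧
      (fderiv ℝ (c.1.symm.trans c'.1) y).det = Complex.normSq (LinearMap.det L) := by
  have h1 : DifferentiableAt ℂ (c.1.symm.trans c'.1) y :=
    ((trans_contDiffOn_complex c c').contDiffAt
      ((c.1.symm.trans c'.1).open_source.mem_nhds hy)).differentiableAt (by simp)
  refine ⟨(fderiv ℂ (c.1.symm.trans c'.1) y : CN n →ₗ[ℂ] CN n), fun v => ?_, ?_⟩
  · rw [(h1.hasFDerivAt.restrictScalars ℝ).fderiv]
    rfl
  · rw [(h1.hasFDerivAt.restrictScalars ℝ).fderiv]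
    have h2 : (ContinuousLinearMap.restrictScalars ℝ (fderiv ℂ (c.1.symm.trans c'.1) y)).det
        = LinearMap.det ((fderiv ℂ (c.1.symm.trans c'.1) y : CN n →ₗ[ℂ] CN n).restrictScalars ℝ) :=
      rfl
    rw [h2, LinearMap.det_restrictScalars, Algebra.norm_complex_apply]

theorem det_rows (L : CN n →ₗ[ℂ] CN n) :
    Matrix.det (Matrix.of fun i => L (eb i)) = LinearMap.det L := by
  rw [← LinearMap.det_toMatrix', ← Matrix.det_transpose]
  congr 1

end det

theorem main (h1 : S_TYPE) (h2 : S_DET) : S_P0.{u} := by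
  intro n X _ _ _ h g hh
  refine ⟨fun c => ?_, fun c y hy => ?_, fun c c' y hy => ?_⟩
  · obtain ⟨P, hP⟩ := (h1 n n).1 0
    have e1 : ContinuousOn (fun y => P (g.loc c y) (ebt n)) c.1.target :=
      ((ContinuousAlternatingMap.apply ℝ (CN n) ℂ (ebt n)).continuous.comp
        P.continuous).comp_continuousOn (g.isForm.smooth c).continuousOn
    have e2 : ContinuousOn (fun y => starRingEnd ℂ (h.loc c y (ebt n))) c.1.target :=
      (Complex.continuous_conj.comp
        (ContinuousAlternatingMap.apply ℝ (CN n) ℂ (ebt n)).continuous).comp_continuousOn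
        (h.isForm.smooth c).continuousOn
    simp only [hP] at e1
    exact e1.mul e2
  · simp [dH, h.isForm.off c y hy]
  · obtain ⟨L, hL, hdet⟩ := det_real c c' hy
    obtain ⟨D, hDd, -, hD⟩ := h2 n
    have key : ∀ a : Alt n n, IsType 0 n a →
        pb a (fderiv ℝ (c.1.symm.trans c'.1) y) (ebt n)
          = a (ebt n) * starRingEnd ℂ (LinearMap.det L) := by
      intro a ha
      have e : pb a (fderiv ℝ (c.1.symm.trans c'.1) y) (ebt n) = a (fun i => L (eb i)) := by
        rw [ContinuousAlternatingMap.compContinuousLinearMap_apply]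
        congr 1
        funext i
        exact hL (eb i)
      rw [e, hD a ha]
      simp only [ContinuousAlternatingMap.smul_apply, smul_eq_mul]
      rw [hDd, hDd, det_ebt, mul_one]
      congr 2
      exact det_rows L
    have e1 : prj n 0 (g.loc c y) (ebt n)
        = prj n 0 (g.loc c' ((c.1.symm.trans c'.1) y)) (ebt n) *
          starRingEnd ℂ (LinearMap.det L) := by
      rw [g.isForm.compat c c' y hy]
      have := (h1 n n).2.2.2.2.2.2.2 n _ (fun l v => fderiv_trans_smul c c' hy l v) 0
        (g.loc c' ((c.1.symm.trans c'.1) y))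
      rw [this]
      exact key _ (by simpa using (h1 n n).2.2.1 0 _ (Nat.zero_le n))
    have e2 : h.loc c y (ebt n) = h.loc c' ((c.1.symm.trans c'.1) y) (ebt n) *
          starRingEnd ℂ (LinearMap.det L) := by
      rw [h.isForm.compat c c' y hy]
      exact key _ (hh c' _)
    simp only [dH]
    rw [e1, e2, hdet, abs_of_nonneg (Complex.normSq_nonneg _), ← Complex.mul_conj, map_mul,
      Complex.conj_conj]
    ring

end Pool.Agent.W19.FS.P0
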