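import Pool.Agent.W19.FS.P1
import Pool.Agent.W19.FS.P0

/-!
# FS-ITOP: the integral of top forms and the theorem of Stokes
-/

open scoped Manifold ContDiff Topology
open MeasureTheory

noncomputable section

namespace Pool.Agent.W19.FS.Itop

open Pool.Agent.W491.FS Pool.Agent.W19.FS.P3 Pool.Agent.W19.FS.P1 Pool.Agent.W19.FS.P0

universe u

section basis

/-- the enumeration of the real basis -/
def en (n K : ℕ) (h : K + 1 = 2 * n) : (Σ _ : Fin n, Fin 2) ≃ Fin (K + 1) :=
  (Equiv.sigmaEquivProd (Fin n) (Fin 2)).trans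
    ((finProdFinEquiv (m := n) (n := 2)).trans (finCongr (by omega)))

/-- the real basis of `ℂ^n` -/
def bs (n K : ℕ) (h : K + 1 = 2 * n) : Module.Basis (Fin (K + 1)) ℝ (CN n) :=
  (Pi.basis fun _ : Fin n => Complex.basisOneI).reindex (en n K h)

theorem bs_eq (n K : ℕ) (h : K + 1 = 2 * n) : ⇑(bs n K h) = rb n (K + 1) := by
  funext i
  obtain ⟨⟨a, s⟩, rfl⟩ := (en n K h).surjective i
  have hv : ((en n K h ⟨a, s⟩ : Fin (K + 1)) : ℕ) = (s : ℕ) + 2 * (a : ℕ) := rfl
  have h1 : ((s : ℕ) + 2 * (a : ℕ)) / 2 = a := by omega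
  have h2 : ((s : ℕ) + 2 * (a : ℕ)) % 2 = s := by omega
  rw [bs, Module.Basis.reindex_apply, Equiv.symm_apply_apply, rb]
  simp only [hv, h1, h2, a.2, dif_pos, Pi.basis_apply, Fin.eta]
  fin_cases s
  · simp [eb]
  · funext j
    simp [eb, Pi.single_apply]

theorem alt_det {n K : ℕ} (h : K + 1 = 2 * n) (a : Alt n (K + 1)) (L : CN n →L[ℝ] CN n) :
    pb a L (rb n (K + 1)) = (L.det : ℂ) * a (rb n (K + 1)) := by
  have hR : ∀ f : CN n [⋀^Fin (K + 1)]→ₗ[ℝ] ℝ,
      f (fun i => L (bs n K h i)) = L.det * f (bs n K h) := by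
    intro f
    rw [f.eq_smul_basis_det (bs n K h)]
    simp only [AlternatingMap.smul_apply, smul_eq_mul, Module.Basis.det_self, mul_one]
    have : (bs n K h).det (fun i => L (bs n K h i))
        = LinearMap.det (L : CN n →ₗ[ℝ] CN n) * (bs n K h).det (bs n K h) :=
      Module.Basis.det_comp (bs n K h) (L : CN n →ₗ[ℝ] CN n) (bs n K h)
    rw [this, Module.Basis.det_self, mul_one, mul_comm]
  have e : pb a L (rb n (K + 1)) = a (fun i => L (bs n K h i)) := by
    rw [bs_eq]
    rfl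
  rw [e, ← bs_eq n K h]
  have hre := hR (Complex.reLm.compAlternatingMap a.toAlternatingMap)
  have him := hR (Complex.imLm.compAlternatingMap a.toAlternatingMap)
  apply Complex.ext
  · rw [Complex.re_ofReal_mul]
    exact hre
  · rw [Complex.im_ofReal_mul]
    exact him

end basis

section dens

variable {n : ℕ} {X : Type u} [TopologicalSpace X] [ChartedSpace (CN n) X]

/-- the density of a top form -/
def mt {K : ℕ} (w : Forms n X (K + 1)) : atlas (CN n) X → CN n → ℂ :=
  fun c y => w.loc c y (rb n (K + 1))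

theorem mt_dens [IsManifold 𝓘(ℂ, CN n) ω X] {K : ℕ} (h : K + 1 = 2 * n)
    (w : Forms n X (K + 1)) : IsDens n X (mt w) := by
  refine ⟨fun c => ?_, fun c y hy => ?_, fun c c' y hy => ?_⟩
  · exact (ContinuousAlternatingMap.apply ℝ (CN n) ℂ (rb n (K + 1))).continuous.comp_continuousOn
      (w.isForm.smooth c).continuousOn
  · simp only [mt, w.isForm.off c y hy]
    rfl
  · simp only [mt]
    obtain ⟨L, -, hdet⟩ := det_real c c' hy
    rw [w.isForm.compat c c' y hy, alt_det h, hdet, abs_of_nonneg (Complex.normSq_nonneg _),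
      mul_comm]

end dens

theorem main (h1 : S_PU.{u}) (h2 : S_INT.{u}) (h3 : S_STK) (h4 : S_VOL) : S_ITOP.{u} := by
  intro n X _ _ _ _ _ _ K hK
  obtain ⟨I, hI⟩ := h2 n X
  obtain ⟨N, c, ρ, C, hρs, hC, hρK, hρr, hρ1⟩ := h1 n X
  let J : Forms n X (K + 1) →ₗ[ℂ] ℂ :=
    { toFun := fun w => I (mt w)
      map_add' := fun a b => by
        rw [← hI.add _ _ (mt_dens hK a) (mt_dens hK b)]
        rfl
      map_smul' := fun r a => by
        rw [RingHom.id_apply, smul_eq_mul, ← hI.smul r _ (mt_dens hK a)]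
        rfl }
  have hJ : ∀ w, J w = I (mt w) := fun _ => rfl
  refine ⟨J, fun w => ?_, fun w c₀ hc₀ hw => ?_⟩
  · have hρ0 : ∀ j, ∀ (c' : atlas (CN n) X), ∀ y, c'.1.symm y ∉ (c j).1.symm '' C j →
        ρ j (c'.1.symm y) = 0 := by
      intro j c' y hy
      by_contra hne
      exact hy (hρK j _ hne)
    have hsum : w = ∑ j, mulF (ρ j) (hρs j) w := by
      refine Forms.ext fun c' y hy => ?_
      rw [loc_sum]
      simp only [mulF, Forms.loc_mk]
      rw [← Finset.sum_smul, hρ1, one_smul]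
    rw [hsum, map_sum, map_sum]
    refine Finset.sum_eq_zero fun i _ => ?_
    have hoff : ∀ (c' : atlas (CN n) X), ∀ y ∈ c'.1.target,
        c'.1.symm y ∉ (c i).1.symm '' C i → (mulF (ρ i) (hρs i) w).loc c' y = 0 := by
      intro c' y hy hn
      simp only [mulF, Forms.loc_mk, hρ0 i c' y hn]
      ext v
      simp
    have hoffd := extD_off (closed_image (c i) (hC i).1 (hC i).2) _ hoff
    rw [hJ, hI.loc (c i) (C i) _ (hC i).1 (hC i).2 (mt_dens hK _) (fun c' y hy hn => by
      simp only [mt, hoffd c' y hy hn]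
      rfl)]
    rw [← h3 n K (c i).1.target (C i) ((mulF (ρ i) (hρs i) w).loc (c i)) (c i).1.open_target
      (hC i).1 (hC i).2 ((mulF (ρ i) (hρs i) w).isForm.smooth (c i)) ?_ (rb n (K + 1))]
    · refine setIntegral_congr_fun (c i).1.open_target.measurableSet fun y hy => ?_
      simp only [mt]
      rw [extD_loc _ (c i) hy]
    · intro z hz hzK
      refine hoff (c i) z hz ?_
      rintro ⟨z', hz', hzz⟩
      have : z' = z := (c i).1.symm.injOn ((hC i).2 hz') hz hzz
      exact hzK (this ▸ hz')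
  · intro hJ0
    have hne : c₀ * (-2 * Complex.I) ^ n ≠ 0 :=
      mul_ne_zero hc₀ (pow_ne_zero _ (mul_ne_zero (by norm_num) Complex.I_ne_zero))
    set s := c₀ * (-2 * Complex.I) ^ n with hs
    -- the real density
    have hval : ∀ c, ∀ y ∈ c.1.target, ∃ r : ℝ, 0 < r ∧ mt (s⁻¹ • w) c y = r := by
      intro c y hy
      obtain ⟨η, hη1, hη2, hη3⟩ := hw c y hy
      obtain ⟨r, hr0, hr⟩ := h4 n η hη1 hη2
      refine ⟨r, hr0, ?_⟩
      simp only [mt, Forms.loc_smul, Pi.smul_apply, ContinuousAlternatingMap.smul_apply, hη3,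
        hr (K + 1) hK, smul_eq_mul]
      rw [← mul_assoc c₀, ← hs, inv_mul_cancel_left₀ hne]
    obtain ⟨r, hr0, hr, hr1⟩ := hI.pos (mt (s⁻¹ • w)) (mt_dens hK _) (fun c y => by
      by_cases hy : y ∈ c.1.target
      · obtain ⟨r, hr, he⟩ := hval c y hy
        exact ⟨r, hr.le, he⟩
      · exact ⟨0, le_rfl, by rw [(mt_dens hK (s⁻¹ • w)).off c y hy]; simp⟩)
    rw [← hJ, map_smul, hJ0, smul_zero] at hr
    have hz := hr1 (Complex.ofReal_eq_zero.1 hr.symm)
    obtain ⟨x⟩ := (inferInstance : Nonempty X)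
    let c : atlas (CN n) X := ⟨chartAt (CN n) x, chart_mem_atlas (CN n) x⟩
    obtain ⟨q, hq, he⟩ := hval c (c.1 x) (mem_chart_target (CN n) x)
    rw [hz] at he
    have : (q : ℂ) = 0 := he.symm
    exact hq.ne' (Complex.ofReal_eq_zero.1 this)

end Pool.Agent.W19.FS.Itop
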