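import Pool.Agent.W19.FS.P1

/-!
# FS-PU: smooth partitions of unity subordinate to finitely many charts
-/

open scoped Manifold ContDiff Topology
open MeasureTheory

noncomputable section

namespace Pool.Agent.W19.FS.Pu

open Pool.Agent.W491.FS Pool.Agent.W19.FS.P3 Pool.Agent.W19.FS.P1

universe u

section ext

variable {n : ℕ} {X : Type u} [TopologicalSpace X] [ChartedSpace (CN n) X]

open Classical in
/-- extension by zero of a function -/
def ex (c : atlas (CN n) X) (f : CN n → ℝ) (x : X) : ℝ := if x ∈ c.1.source then f (c.1 x) else 0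

theorem ex_smooth [IsManifold 𝓘(ℂ, CN n) ω X] [T2Space X] (c : atlas (CN n) X) {f : CN n → ℝ}
    (hf : ContDiff ℝ ∞ f) {K : Set (CN n)} (hK : IsCompact K) (hKt : K ⊆ c.1.target)
    (h0 : ∀ y, y ∉ K → f y = 0) (c' : atlas (CN n) X) :
    ContDiffOn ℝ ∞ (fun y => ex c f (c'.1.symm y)) c'.1.target := by
  intro y hy
  apply ContDiffAt.contDiffWithinAt
  by_cases hs : c'.1.symm y ∈ c.1.source
  · have hy2 := mem_source hy hs
    have h1 : ContDiffAt ℝ ∞ (c'.1.symm.trans c.1) y :=
      (trans_contDiffOn c' c).contDiffAt ((c'.1.symm.trans c.1).open_source.mem_nhds hy2)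
    refine (hf.contDiffAt.comp y h1).congr_of_eventuallyEq ?_
    filter_upwards [(c'.1.symm.trans c.1).open_source.mem_nhds hy2] with z hz
    have hz2 := (trans_source_iff c' c z).1 hz
    simp only [ex, hz2.2, if_true]
    rfl
  · have hcl := closed_image c hK hKt
    have hn : c'.1.symm y ∉ c.1.symm '' K := by
      rintro ⟨z, hz, hzy⟩
      exact hs (hzy ▸ c.1.map_target (hKt hz))
    have h1 : ∀ᶠ z in 𝓝 y, c'.1.symm z ∈ (c.1.symm '' K)ᶜ :=
      (c'.1.continuousAt_symm hy).preimage_mem_nhds (hcl.isOpen_compl.mem_nhds hn)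
    have h2 : (fun y => ex c f (c'.1.symm y)) =ᶠ[𝓝 y] fun _ => 0 := by
      filter_upwards [h1] with z hz
      by_cases hzs : c'.1.symm z ∈ c.1.source
      · simp only [ex, hzs, if_true]
        apply h0
        intro hK'
        exact hz ⟨_, hK', c.1.left_inv hzs⟩
      · simp only [ex, hzs, if_false]
    exact contDiffAt_const.congr_of_eventuallyEq h2

end ext

theorem main : S_PU.{u} := by
  intro n X _ _ _ _ _
  -- local data
  have hloc : ∀ x : X, ∃ (c : atlas (CN n) X) (K : Set (CN n)) (f : CN n → ℝ) (W : Set X),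
      IsCompact K ∧ K ⊆ c.1.target ∧ ContDiff ℝ ∞ f ∧ (∀ y, y ∉ K → f y = 0) ∧ (∀ y, 0 ≤ f y) ∧
      W ∈ 𝓝 x ∧ ∀ x' ∈ W, ex c f x' = 1 := by
    intro x
    let c : atlas (CN n) X := ⟨chartAt (CN n) x, chart_mem_atlas (CN n) x⟩
    have hxt : c.1 x ∈ c.1.target := mem_chart_target (CN n) x
    obtain ⟨R, hR0, hR⟩ := Metric.isOpen_iff.1 c.1.open_target _ hxt
    let f : ContDiffBump (c.1 x) := ⟨R / 4, R / 2, by positivity, by linarith⟩
    refine ⟨c, Metric.closedBall (c.1 x) (R / 2), f, c.1.source ∩ c.1 ⁻¹' Metric.ball (c.1 x) (R / 4),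
      isCompact_closedBall _ _, ?_, f.contDiff, fun y hy => ?_, fun y => f.nonneg, ?_, ?_⟩
    · exact (Metric.closedBall_subset_ball (by linarith)).trans hR
    · apply f.zero_of_le_dist
      rw [Metric.mem_closedBall, not_le] at hy
      exact hy.le
    · have hxs : x ∈ c.1.source := mem_chart_source (CN n) x
      exact Filter.inter_mem (c.1.open_source.mem_nhds hxs)
        ((c.1.continuousAt hxs).preimage_mem_nhds (Metric.ball_mem_nhds _ (by positivity)))
    · rintro x' ⟨hx1, hx2⟩
      simp only [ex, hx1, if_true]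
      apply f.one_of_mem_closedBall
      exact Metric.ball_subset_closedBall hx2
  choose c K f W hK hKt hf hf0 hfn hW hW1 using hloc
  obtain ⟨t, -, ht⟩ := isCompact_univ.elim_nhds_subcover W (fun x _ => hW x)
  let e := t.equivFin
  let G : Fin t.card → X → ℝ := fun i => ex (c (e.symm i)) (f (e.symm i))
  have hGn : ∀ i x, 0 ≤ G i x := by
    intro i x
    simp only [G, ex]
    split_ifs
    · exact hfn _ _
    · exact le_rfl
  have hGs : ∀ i (c' : atlas (CN n) X), ContDiffOn ℝ ∞ (fun y => G i (c'.1.symm y)) c'.1.target :=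
    fun i c' => ex_smooth _ (hf _) (hK _) (hKt _) (hf0 _) c'
  have hS : ∀ x, 0 < ∑ i, G i x := by
    intro x
    obtain ⟨z, hz, hxz⟩ := Set.mem_iUnion₂.1 (ht (Set.mem_univ x))
    have h1 : G (e ⟨z, hz⟩) x = 1 := by
      simp only [G, Equiv.symm_apply_apply]
      exact hW1 z x hxz
    have h2 : G (e ⟨z, hz⟩) x ≤ ∑ i, G i x :=
      Finset.single_le_sum (fun i _ => hGn i x) (Finset.mem_univ _)
    linarith
  refine ⟨t.card, fun i => c (e.symm i), fun i x => ((G i x / ∑ j, G j x : ℝ) : ℂ),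
    fun i => K (e.symm i), fun i c' => ?_, fun i => ⟨hK _, hKt _⟩, fun i x hx => ?_,
    fun i x => ⟨_, div_nonneg (hGn i x) (hS x).le, rfl⟩, fun x => ?_⟩
  · refine Complex.ofRealCLM.contDiff.comp_contDiffOn ((hGs i c').div
      (ContDiffOn.sum fun j _ => hGs j c') fun y _ => (hS _).ne')
  · have hne : G i x ≠ 0 := by
      intro h0
      apply hx
      show ((G i x / ∑ j, G j x : ℝ) : ℂ) = 0
      rw [h0, zero_div]
      rfl
    by_cases hxs : x ∈ (c (e.symm i)).1.source
    · simp only [G, ex, hxs, if_true] at hne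
      refine ⟨_, ?_, (c (e.symm i)).1.left_inv hxs⟩
      by_contra hnK
      exact hne (hf0 _ _ hnK)
    · simp only [G, ex, hxs, if_false] at hne
      exact absurd rfl hne
  · rw [← Complex.ofReal_sum, ← Finset.sum_div, div_self (hS x).ne', Complex.ofReal_one]

end Pool.Agent.W19.FS.Pu
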