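import Pool.Agent.W491.FS.Stm

/-!
# FS-CONJ: complex conjugation of forms
-/

open scoped Manifold ContDiff Topology
open MeasureTheory

noncomputable section

namespace Pool.Agent.W19.FS.Conj

open Pool.Agent.W491.FS

universe u

/-- complex conjugation of alternating forms -/
def cj (n k : ℕ) : Alt n k →L[ℝ] Alt n k :=
  ContinuousLinearMap.compContinuousAlternatingMapCLM ℝ (CN n) ℂ ℂ (Fin k)
    Complex.conjCLE.toContinuousLinearMap

theorem cj_apply {n k : ℕ} (a : Alt n k) (v : Fin k → CN n) :
    cj n k a v = starRingEnd ℂ (a v) := rfl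

theorem extDeriv_cj {n k : ℕ} {f : CN n → Alt n k} {y : CN n} (hf : DifferentiableAt ℝ f y) :
    extDeriv (fun z => cj n k (f z)) y = cj n (k + 1) (extDeriv f y) := by
  have h1 : fderiv ℝ (fun z => cj n k (f z)) y = (cj n k).comp (fderiv ℝ f y) :=
    ((cj n k).hasFDerivAt.comp y hf.hasFDerivAt).fderiv
  rw [extDeriv, extDeriv, h1]
  ext v
  rw [cj_apply, ContinuousAlternatingMap.alternatizeUncurryFin_apply,
    ContinuousAlternatingMap.alternatizeUncurryFin_apply, map_sum]
  refine Finset.sum_congr rfl fun i _ => ?_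
  rw [map_zsmul]
  rfl

theorem main : S_CONJ.{u} := by
  intro n X _ _ _
  refine ⟨fun k w => Forms.mk (fun c y => cj n k (w.loc c y))
    { smooth := fun c => (cj n k).contDiff.comp_contDiffOn (w.isForm.smooth c)
      off := fun c y hy => by rw [w.isForm.off c y hy, map_zero]
      compat := fun c c' y hy => by
        rw [w.isForm.compat c c' y hy]
        rfl }, fun k w c y v => rfl, fun k w => ?_, fun k p q w hw c y l v => ?_⟩
  · refine Forms.ext fun c y hy => ?_
    rw [extD_loc _ c hy]
    simp only [Forms.loc_mk]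
    rw [extD_loc _ c hy]
    exact extDeriv_cj (w.differentiableAt c hy)
  · have := hw c y l v
    simp only [Forms.loc_mk, cj_apply, this, map_mul, map_pow, Complex.conj_conj]
    ring

end Pool.Agent.W19.FS.Conj
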