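import Pool.Agent.W491.FS.Stm

/-!
# FS-FA: the Fredholm alternative for smooth kernels with smooth test functions
-/

open scoped Manifold ContDiff Topology Convolution BoundedContinuousFunction
open MeasureTheory Set

noncomputable section

namespace Pool.Agent.W19.FS.Fa

open Pool.Agent.W491.FS

variable {n N : ℕ}

/-- smoothness of parametric integrals -/
theorem smooth_int (k : CN n × CN n → ℂ) (hk : ContDiff ℝ ∞ k) (B : Set (CN n)) (hB : IsCompact B)
    (hs : ∀ y x, x ∉ B → k (y, x) = 0) (u : CN n → ℂ) (hu : Continuous u) :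
    ContDiff ℝ ∞ (fun y => ∫ x, k (y, x) * u x) := by
  have h := contDiffOn_convolution_right_with_param_comp (𝕜 := ℝ) (μ := volume) (n := ⊤)
    (ContinuousLinearMap.mul ℝ ℂ) (s := univ) (v := fun _ : CN n => (0 : CN n)) contDiffOn_const
    (f := u) (g := fun (y : CN n) (x : CN n) => k (y, -x)) (k := -B) isOpen_univ (hB.neg)
    (fun p x _ hx => hs _ _ (by simpa using hx)) hu.locallyIntegrable
    ((hk.comp (contDiff_fst.prodMk contDiff_snd.neg)).contDiffOn)
  have h2 := contDiffOn_univ.1 h
  convert h2 using 1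
  funext y
  simp only [convolution, ContinuousLinearMap.mul_apply', zero_sub, neg_neg]
  exact integral_congr_ae (Filter.Eventually.of_forall fun x => mul_comm _ _)

theorem int_bound (B : Set (CN n)) (hB : IsCompact B) (k : CN n → ℂ) (hk0 : ∀ x, x ∉ B → k x = 0)
    (ε C : ℝ) (hk : ∀ x, ‖k x‖ ≤ ε) (u : CN n → ℂ) (hu : ∀ x, ‖u x‖ ≤ C) :
    ‖∫ x, k x * u x‖ ≤ ε * C * volume.real B := by
  have h0 : ∫ x, k x * u x = ∫ x in B, k x * u x := by
    rw [setIntegral_eq_integral_of_forall_compl_eq_zero]
    intro x hx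
    rw [hk0 x hx, zero_mul]
  rw [h0]
  apply norm_setIntegral_le_of_norm_le_const hB.measure_lt_top
  intro x _
  rw [norm_mul]
  exact mul_le_mul (hk x) (hu x) (norm_nonneg _) ((norm_nonneg _).trans (hk x))

theorem integ (k : CN n → ℂ) (hk : Continuous k) (B : Set (CN n)) (hB : IsCompact B)
    (hk0 : ∀ x, x ∉ B → k x = 0) (u : CN n → ℂ) (hu : Continuous u) :
    Integrable (fun x => k x * u x) := by
  apply (hk.mul hu).integrable_of_hasCompactSupport
  apply HasCompactSupport.intro hB
  intro x hx
  simp [hk0 x hx]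

/-- the integral operator -/
def TT (k : Fin N → Fin N → CN n × CN n → ℂ) (u : Fin N → CN n → ℂ) (j : Fin N) (y : CN n) : ℂ :=
  ∑ i, ∫ x, k j i (y, x) * u i x

theorem TT_smooth (k : Fin N → Fin N → CN n × CN n → ℂ) (hk : ∀ i j, ContDiff ℝ ∞ (k i j))
    (B : Set (CN n)) (hB : IsCompact B) (hs : ∀ i j y x, (y ∉ B ∨ x ∉ B) → k i j (y, x) = 0)
    (u : Fin N → CN n → ℂ) (hu : ∀ i, Continuous (u i)) (j : Fin N) :
    ContDiff ℝ ∞ (TT k u j) :=
  ContDiff.sum fun i _ => smooth_int (k j i) (hk j i) B hB (fun _ _ hx => hs _ _ _ _ (Or.inr hx))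
    (u i) (hu i)

theorem TT_supp (k : Fin N → Fin N → CN n × CN n → ℂ)
    (B : Set (CN n)) (hB : IsCompact B) (hs : ∀ i j y x, (y ∉ B ∨ x ∉ B) → k i j (y, x) = 0)
    (u : Fin N → CN n → ℂ) (j : Fin N) :
    HasCompactSupport (TT k u j) := by
  apply HasCompactSupport.intro hB
  intro y hy
  simp [TT, hs _ _ y _ (Or.inl hy)]

theorem fix (k : Fin N → Fin N → CN n × CN n → ℂ) (hk : ∀ i j, ContDiff ℝ ∞ (k i j))
    (B : Set (CN n)) (hB : IsCompact B) (hs : ∀ i j y x, (y ∉ B ∨ x ∉ B) → k i j (y, x) = 0)
    (ε : ℝ) (hε : ∀ i j p, ‖k i j p‖ ≤ ε) (hc : (N : ℝ) * (ε * volume.real B) ≤ 1 / 2)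
    (g : Fin N → CN n → ℂ) (hg : ∀ i, ContDiff ℝ ∞ (g i)) (hgc : ∀ i, HasCompactSupport (g i)) :
    ∃ u : Fin N → CN n → ℂ, (∀ i, ContDiff ℝ ∞ (u i)) ∧ (∀ i, HasCompactSupport (u i)) ∧
      ∀ j y, u j y = g j y + TT k u j y := by
  -- the map on bounded continuous functions
  have hcont : ∀ u : CN n →ᵇ (Fin N → ℂ),
      Continuous fun y => fun j => g j y + TT k (fun i x => u x i) j y := by
    intro u
    refine continuous_pi fun j => (hg j).continuous.add
      (TT_smooth k hk B hB hs _ (fun i => ?_) j).continuous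
    exact (continuous_apply i).comp u.continuous
  have hbdd : ∀ u : CN n →ᵇ (Fin N → ℂ), HasCompactSupport
      (fun y => fun j => g j y + TT k (fun i x => u x i) j y) := by
    intro u
    apply HasCompactSupport.intro (K := B ∪ ⋃ j, tsupport (g j))
      (hB.union (isCompact_iUnion fun j => hgc j))
    intro y hy
    rw [mem_union, mem_iUnion, not_or, not_exists] at hy
    funext j
    simp [TT, hs _ _ y _ (Or.inl hy.1), image_eq_zero_of_notMem_tsupport (hy.2 j)]
  have hbd : ∀ u : CN n →ᵇ (Fin N → ℂ), ∃ C, ∀ y,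
      ‖(fun j => g j y + TT k (fun i x => u x i) j y : Fin N → ℂ)‖ ≤ C := fun u =>
    (hbdd u).exists_bound_of_continuous (hcont u)
  choose C hC using hbd
  let F : (CN n →ᵇ (Fin N → ℂ)) → (CN n →ᵇ (Fin N → ℂ)) := fun u =>
    BoundedContinuousFunction.ofNormedAddCommGroup _ (hcont u) (C u) (hC u)
  have hFa : ∀ u y j, F u y j = g j y + TT k (fun i x => u x i) j y := fun u y j => rfl
  have hlip : LipschitzWith (1 / 2) F := by
    apply LipschitzWith.of_dist_le_mul
    intro u v
    rw [BoundedContinuousFunction.dist_le (by positivity)]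
    intro y
    rw [dist_pi_le_iff (by positivity)]
    intro j
    rw [hFa, hFa, dist_add_left, dist_eq_norm]
    have hsub : TT k (fun i x => u x i) j y - TT k (fun i x => v x i) j y
        = ∑ i, ∫ x, k j i (y, x) * (u x i - v x i) := by
      simp only [TT]
      rw [← Finset.sum_sub_distrib]
      refine Finset.sum_congr rfl fun i _ => ?_
      have hci : Continuous fun x => k j i (y, x) :=
        (hk j i).continuous.comp (continuous_const.prodMk continuous_id)
      have i1 : Integrable (fun x => k j i (y, x) * u x i) :=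
        integ _ hci B hB (fun x hx => hs _ _ _ _ (Or.inr hx)) _
          ((continuous_apply i).comp u.continuous)
      have i2 : Integrable (fun x => k j i (y, x) * v x i) :=
        integ _ hci B hB (fun x hx => hs _ _ _ _ (Or.inr hx)) _
          ((continuous_apply i).comp v.continuous)
      rw [← integral_sub i1 i2]
      exact integral_congr_ae (Filter.Eventually.of_forall fun x => by simp [mul_sub])
    rw [hsub]
    refine (norm_sum_le _ _).trans ?_
    have hb : ∀ i ∈ Finset.univ (α := Fin N), ‖∫ x, k j i (y, x) * (u x i - v x i)‖ ≤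
        ε * dist u v * volume.real B := fun i _ =>
      int_bound B hB _ (fun x hx => hs _ _ _ _ (Or.inr hx)) ε (dist u v) (fun x => hε _ _ _) _
        (fun x => by
          rw [← dist_eq_norm]
          exact (dist_le_pi_dist (u x) (v x) i).trans (BoundedContinuousFunction.dist_coe_le_dist x))
    refine (Finset.sum_le_sum hb).trans ?_
    rw [Finset.sum_const, Finset.card_univ, Fintype.card_fin, nsmul_eq_mul]
    have := mul_le_mul_of_nonneg_right hc (dist_nonneg (x := u) (y := v))
    push_cast
    nlinarith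
  have hcon : ContractingWith (1 / 2) F := ⟨by norm_num, hlip⟩
  let w := ContractingWith.fixedPoint F hcon
  have hw : F w = w := hcon.fixedPoint_isFixedPt
  have hwe : ∀ j y, w y j = g j y + TT k (fun i x => w x i) j y := by
    intro j y
    rw [← hFa w y j, hw]
  have hwc : ∀ i, Continuous fun x => w x i := fun i => (continuous_apply i).comp w.continuous
  refine ⟨fun i x => w x i, fun i => ?_, fun i => ?_, fun j y => hwe j y⟩
  · have : (fun x => w x i) = fun y => g i y + TT k (fun i x => w x i) i y :=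
      funext fun y => hwe i y
    change ContDiff ℝ ∞ (fun x => w x i)
    rw [this]
    exact (hg i).add (TT_smooth k hk B hB hs _ hwc i)
  · have : (fun x => w x i) = fun y => g i y + TT k (fun i x => w x i) i y :=
      funext fun y => hwe i y
    change HasCompactSupport (fun x => w x i)
    rw [this]
    exact (hgc i).add (TT_supp k B hB hs _ i)

/-- the transposed kernel -/
def tr (k : Fin N → Fin N → CN n × CN n → ℂ) (i j : Fin N) (p : CN n × CN n) : ℂ :=
  k j i (p.2, p.1)

theorem tr_smooth (k : Fin N → Fin N → CN n × CN n → ℂ) (hk : ∀ i j, ContDiff ℝ ∞ (k i j))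
    (i j : Fin N) : ContDiff ℝ ∞ (tr k i j) :=
  (hk j i).comp (contDiff_snd.prodMk contDiff_fst)

theorem tr_supp (k : Fin N → Fin N → CN n × CN n → ℂ) (B : Set (CN n))
    (hs : ∀ i j y x, (y ∉ B ∨ x ∉ B) → k i j (y, x) = 0) :
    ∀ i j y x, (y ∉ B ∨ x ∉ B) → tr k i j (y, x) = 0 := fun i j y x h => hs j i x y h.symm

theorem fub (k : Fin N → Fin N → CN n × CN n → ℂ) (hk : ∀ i j, ContDiff ℝ ∞ (k i j))
    (B : Set (CN n)) (hB : IsCompact B) (hs : ∀ i j y x, (y ∉ B ∨ x ∉ B) → k i j (y, x) = 0)
    (u v : Fin N → CN n → ℂ) (hu : ∀ i, Continuous (u i)) (hv : ∀ i, Continuous (v i)) :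
    ∑ j, ∫ y, u j y * TT k v j y = ∑ i, ∫ x, TT (tr k) u i x * v i x := by
  have hcs : ∀ i j, HasCompactSupport (Function.uncurry fun y x =>
      u j y * (k j i (y, x) * v i x)) := by
    intro i j
    apply HasCompactSupport.intro (hB.prod hB)
    rintro ⟨y, x⟩ hyx
    rw [mem_prod, not_and_or] at hyx
    simp [hs j i y x hyx]
  have hct : ∀ i j, Continuous (Function.uncurry fun y x =>
      u j y * (k j i (y, x) * v i x)) := by
    intro i j
    exact ((hu j).comp continuous_fst).mul (((hk j i).continuous).mul ((hv i).comp continuous_snd))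
  have h1 : ∀ j, ∫ y, u j y * TT k v j y = ∑ i, ∫ y, ∫ x, u j y * (k j i (y, x) * v i x) := by
    intro j
    have : (fun y => u j y * TT k v j y)
        = fun y => ∑ i, (∫ x, k j i (y, x) * v i x) * u j y := by
      funext y
      simp only [TT, Finset.mul_sum]
      exact Finset.sum_congr rfl fun i _ => mul_comm _ _
    rw [this, integral_finsetSum]
    · refine Finset.sum_congr rfl fun i _ => integral_congr_ae
        (Filter.Eventually.of_forall fun y => ?_)
      simp only
      rw [mul_comm, ← integral_const_mul]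
    · intro i _
      exact integ _ (smooth_int (k j i) (hk j i) B hB (fun _ _ hx => hs _ _ _ _ (Or.inr hx)) (v i)
        (hv i)).continuous B hB (fun y hy => by simp [hs j i y _ (Or.inl hy)]) _ (hu j)
  have h2 : ∀ i, ∫ x, TT (tr k) u i x * v i x
      = ∑ j, ∫ x, ∫ y, u j y * (k j i (y, x) * v i x) := by
    intro i
    have : (fun x => TT (tr k) u i x * v i x)
        = fun x => ∑ j, (∫ y, tr k i j (x, y) * u j y) * v i x := by
      funext x
      simp only [TT, Finset.sum_mul]
    rw [this, integral_finsetSum]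
    · refine Finset.sum_congr rfl fun j _ => integral_congr_ae
        (Filter.Eventually.of_forall fun x => ?_)
      simp only
      rw [← integral_mul_const]
      refine integral_congr_ae (Filter.Eventually.of_forall fun y => ?_)
      simp only [tr]
      ring
    · intro j _
      exact integ _ (smooth_int (tr k i j) (tr_smooth k hk i j) B hB
        (fun y x hx => tr_supp k B hs _ _ _ _ (Or.inr hx)) (u j)
        (hu j)).continuous B hB (fun y hy => by simp [tr_supp k B hs i j y _ (Or.inl hy)]) _ (hv i)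
  simp only [h1, h2]
  rw [Finset.sum_comm]
  refine Finset.sum_congr rfl fun i _ => Finset.sum_congr rfl fun j _ => ?_
  exact integral_integral_swap_of_hasCompactSupport (hct i j) (hcs i j)

theorem main : S_FA := by
  intro n N κ hn hκ hκc
  -- a common compact set
  obtain ⟨R, hR0, hR⟩ : ∃ R : ℝ, 0 < R ∧ ∀ i j (y x : CN n), (R ≤ ‖y‖ ∨ R ≤ ‖x‖) →
      κ i j (y, x) = 0 := by
    have hcomp : IsCompact (⋃ i, ⋃ j, tsupport (κ i j)) :=
      isCompact_iUnion fun i => isCompact_iUnion fun j => hκc i j
    obtain ⟨R, hR⟩ := hcomp.isBounded.subset_ball (0 : CN n × CN n)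
    refine ⟨max R 1, by positivity, fun i j y x h => ?_⟩
    by_contra hne
    have hmem : (y, x) ∈ ⋃ i, ⋃ j, tsupport (κ i j) :=
      mem_iUnion.2 ⟨i, mem_iUnion.2 ⟨j, subset_tsupport _ hne⟩⟩
    have := hR hmem
    rw [mem_ball_zero_iff, Prod.norm_def, max_lt_iff] at this
    rcases h with h | h
    · exact absurd (lt_of_lt_of_le this.1 (le_max_left R 1)) (not_lt.2 h)
    · exact absurd (lt_of_lt_of_le this.2 (le_max_left R 1)) (not_lt.2 h)
  let B : Set (CN n) := Metric.closedBall 0 (R + 1)
  have hB : IsCompact B := isCompact_closedBall 0 (R + 1)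
  -- small epsilon
  obtain ⟨ε, hε0, hε⟩ : ∃ ε : ℝ, 0 < ε ∧ (N : ℝ) * (ε * volume.real B) ≤ 1 / 2 := by
    refine ⟨1 / (2 * ((N : ℝ) * volume.real B + 1)), by positivity, ?_⟩
    have h0 : 0 ≤ (N : ℝ) * volume.real B := by positivity
    rw [div_mul_eq_mul_div, one_mul, mul_div_assoc', div_le_div_iff₀ (by positivity) (by positivity)]
    nlinarith
  -- uniform continuity
  obtain ⟨δ, hδ0, hδ1, hδ⟩ : ∃ δ : ℝ, 0 < δ ∧ δ ≤ 1 ∧ ∀ i j (y y' x : CN n), dist y y' < δ →
      ‖κ i j (y, x) - κ i j (y', x)‖ ≤ ε := by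
    have huc : ∀ i j, ∃ δ : ℝ, 0 < δ ∧ ∀ (y y' x : CN n), dist y y' < δ →
        ‖κ i j (y, x) - κ i j (y', x)‖ ≤ ε := by
      intro i j
      have huc := (hκc i j).uniformContinuous_of_continuous (hκ i j).continuous
      obtain ⟨δ, hδ0, hδ⟩ := Metric.uniformContinuous_iff.1 huc ε hε0
      refine ⟨δ, hδ0, fun y y' x h => ?_⟩
      have := hδ (a := (y, x)) (b := (y', x)) (by
        rw [Prod.dist_eq, dist_self]
        exact max_lt h hδ0)
      rw [dist_eq_norm] at this
      exact this.le
    choose d hd0 hd using huc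
    by_cases hN : N = 0
    · subst hN
      exact ⟨1, one_pos, le_rfl, fun i => i.elim0⟩
    · have hne : (Finset.univ : Finset (Fin N × Fin N)).Nonempty :=
        ⟨(⟨0, Nat.pos_of_ne_zero hN⟩, ⟨0, Nat.pos_of_ne_zero hN⟩), Finset.mem_univ _⟩
      refine ⟨min 1 (Finset.univ.inf' hne fun p => d p.1 p.2), ?_, min_le_left _ _, ?_⟩
      · rw [lt_min_iff, Finset.lt_inf'_iff]
        exact ⟨one_pos, fun p _ => hd0 _ _⟩
      · intro i j y y' x h
        refine hd i j y y' x (h.trans_le ((min_le_right _ _).trans ?_))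
        exact Finset.inf'_le (fun p : Fin N × Fin N => d p.1 p.2) (Finset.mem_univ (i, j))
  -- the partition of unity
  obtain ⟨t, htB, htf, htc⟩ := (isCompact_closedBall (0 : CN n) R).finite_cover_balls hδ0
  have : Fintype t := htf.fintype
  obtain ⟨η, hη⟩ := SmoothPartitionOfUnity.exists_isSubordinate (𝓘(ℝ, CN n))
    (s := Metric.closedBall (0 : CN n) R) Metric.isClosed_closedBall
    (fun y : t => Metric.ball (y : CN n) δ) (fun y => Metric.isOpen_ball) (by
      intro z hz
      have := htc hz
      rw [mem_iUnion₂] at this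
      obtain ⟨y, hy, hzy⟩ := this
      exact mem_iUnion.2 ⟨⟨y, hy⟩, hzy⟩)
  have hηs : ∀ m, ContDiff ℝ ∞ (fun y => ((η m y : ℝ) : ℂ)) := fun m =>
    Complex.ofRealCLM.contDiff.comp (η m).contMDiff.contDiff
  have hη0 : ∀ (m : t) (y : CN n), δ ≤ dist y m → η m y = 0 := by
    intro m y h
    by_contra hne
    have h1 := hη m (subset_tsupport _ hne)
    rw [Metric.mem_ball] at h1
    exact absurd h1 (not_lt.2 h)
  have hηB : ∀ (m : t) (y : CN n), y ∉ B → η m y = 0 := by
    intro m y hy
    apply hη0
    by_contra hlt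
    rw [not_le, dist_eq_norm] at hlt
    apply hy
    rw [mem_closedBall_zero_iff]
    have h1 : ‖(m : CN n)‖ ≤ R := mem_closedBall_zero_iff.1 (htB m.2)
    have h2 : ‖y‖ ≤ ‖y - m‖ + ‖(m : CN n)‖ := by
      simpa using norm_add_le (y - m) (m : CN n)
    linarith
  -- the small kernel
  let e : Fin N → Fin N → CN n × CN n → ℂ := fun i j p =>
    κ i j p - ∑ m, ((η m p.1 : ℝ) : ℂ) * κ i j ((m : CN n), p.2)
  have he : ∀ i j, ContDiff ℝ ∞ (e i j) := by
    intro i j
    refine (hκ i j).sub (ContDiff.sum fun m _ => ?_)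
    exact ((hηs m).comp contDiff_fst).mul ((hκ i j).comp (contDiff_const.prodMk contDiff_snd))
  have hes : ∀ i j y x, (y ∉ B ∨ x ∉ B) → e i j (y, x) = 0 := by
    intro i j y x h
    have hBn : ∀ z : CN n, z ∉ B → R ≤ ‖z‖ := by
      intro z hz
      rw [mem_closedBall_zero_iff] at hz
      linarith
    rcases h with h | h
    · simp only [e, hηB _ y h, hR i j y x (Or.inl (hBn y h))]
      simp
    · simp only [e, hR i j _ x (Or.inr (hBn x h))]
      simp
  have heb : ∀ i j p, ‖e i j p‖ ≤ ε := by
    rintro i j ⟨y, x⟩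
    have h1 : κ i j (y, x) = ∑ m, ((η m y : ℝ) : ℂ) * κ i j (y, x) := by
      by_cases hy : y ∈ Metric.closedBall (0 : CN n) R
      · have := η.sum_eq_one hy
        rw [finsum_eq_sum_of_fintype] at this
        rw [← Finset.sum_mul, ← Complex.ofReal_sum, this]
        simp
      · rw [mem_closedBall_zero_iff, not_le] at hy
        rw [hR i j y x (Or.inl hy.le)]
        simp
    have h2 : e i j (y, x) = ∑ m, ((η m y : ℝ) : ℂ) * (κ i j (y, x) - κ i j ((m : CN n), x)) := by
      simp only [e, mul_sub, Finset.sum_sub_distrib]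
      rw [← h1]
    rw [h2]
    refine (norm_sum_le _ _).trans ?_
    have h3 : ∀ m ∈ (Finset.univ : Finset t),
        ‖((η m y : ℝ) : ℂ) * (κ i j (y, x) - κ i j ((m : CN n), x))‖ ≤ η m y * ε := by
      intro m _
      rw [norm_mul, Complex.norm_real, Real.norm_eq_abs, abs_of_nonneg (η.nonneg m y)]
      by_cases hm : dist y m < δ
      · exact mul_le_mul_of_nonneg_left (hδ i j _ _ _ hm) (η.nonneg m y)
      · rw [hη0 m y (not_lt.1 hm)]
        simp
    refine (Finset.sum_le_sum h3).trans ?_
    rw [← Finset.sum_mul]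
    have := η.sum_le_one y
    rw [finsum_eq_sum_of_fintype] at this
    nlinarith
  -- the test functions
  have hb : ∀ p : t × Fin N, ∃ u : Fin N → CN n → ℂ, (∀ i, ContDiff ℝ ∞ (u i)) ∧
      (∀ i, HasCompactSupport (u i)) ∧
      ∀ i y, u i y = κ p.2 i ((p.1 : CN n), y) + TT (tr e) u i y := by
    intro p
    refine fix (tr e) (tr_smooth e he) B hB (tr_supp e B hes) ε (fun i j q => heb j i _) hε
      (fun i y => κ p.2 i ((p.1 : CN n), y)) (fun i => (hκ _ _).comp
        (contDiff_const.prodMk contDiff_id)) (fun i => ?_)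
    apply HasCompactSupport.intro (isCompact_closedBall (0 : CN n) R)
    intro x hx
    rw [mem_closedBall_zero_iff, not_le] at hx
    exact hR _ _ _ _ (Or.inr hx.le)
  choose ψ hψs hψc hψ using hb
  let E := Fintype.equivFin (t × Fin N)
  refine ⟨Fintype.card (t × Fin N), fun m => ψ (E.symm m), fun m i => hψs _ _, ?_⟩
  intro f hf hfc hort
  obtain ⟨v, hvs, hvc, hv⟩ := fix e he B hB hes ε heb hε f hf hfc
  refine ⟨v, hvs, hvc, fun j y => ?_⟩
  have horth : ∀ p : t × Fin N, ∑ i, ∫ x, κ p.2 i ((p.1 : CN n), x) * v i x = 0 := by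
    intro p
    have h0 := hort (E p)
    simp only [Equiv.symm_apply_apply] at h0
    have hF := fub e he B hB hes (ψ p) v (fun i => (hψs p i).continuous)
      (fun i => (hvs i).continuous)
    have i1 : ∀ i, Integrable (fun x => ψ p i x * v i x) := fun i =>
      ((hψs p i).continuous.mul (hvs i).continuous).integrable_of_hasCompactSupport
        ((hvc i).mul_left)
    have i2 : ∀ i, Integrable (fun x => TT (tr e) (ψ p) i x * v i x) := fun i =>
      ((TT_smooth (tr e) (tr_smooth e he) B hB (tr_supp e B hes) _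
        (fun i => (hψs p i).continuous) i).continuous.mul
        (hvs i).continuous).integrable_of_hasCompactSupport ((hvc i).mul_left)
    have i3 : ∀ i, Integrable (fun x => ψ p i x * TT e v i x) := fun i =>
      ((hψs p i).continuous.mul (TT_smooth e he B hB hes _
        (fun i => (hvs i).continuous) i).continuous).integrable_of_hasCompactSupport
        ((TT_supp e B hB hes v i).mul_left)
    have h1 : ∀ i, ∫ x, κ p.2 i ((p.1 : CN n), x) * v i x
        = (∫ x, ψ p i x * v i x) - ∫ x, TT (tr e) (ψ p) i x * v i x := by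
      intro i
      rw [← integral_sub (i1 i) (i2 i)]
      refine integral_congr_ae (Filter.Eventually.of_forall fun x => ?_)
      simp only [hψ p i x]
      ring
    have h2 : ∀ i, ∫ x, ψ p i x * f i x
        = (∫ x, ψ p i x * v i x) - ∫ x, ψ p i x * TT e v i x := by
      intro i
      rw [← integral_sub (i1 i) (i3 i)]
      refine integral_congr_ae (Filter.Eventually.of_forall fun x => ?_)
      simp only [hv i x]
      ring
    simp only [h1, Finset.sum_sub_distrib]
    rw [← hF, ← Finset.sum_sub_distrib]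
    rw [← h0]
    exact Finset.sum_congr rfl fun i _ => (h2 i).symm
  have hk : ∀ i, ∫ x, κ j i (y, x) * v i x = (∫ x, e j i (y, x) * v i x)
      + ∑ m, ((η m y : ℝ) : ℂ) * ∫ x, κ j i ((m : CN n), x) * v i x := by
    intro i
    have j1 : ∀ z : CN n, Integrable (fun x => κ j i (z, x) * v i x) := fun z =>
      (((hκ j i).continuous.comp (continuous_const.prodMk continuous_id)).mul
        (hvs i).continuous).integrable_of_hasCompactSupport ((hvc i).mul_left)
    have j2 : Integrable (fun x => e j i (y, x) * v i x) :=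
      (((he j i).continuous.comp (continuous_const.prodMk continuous_id)).mul
        (hvs i).continuous).integrable_of_hasCompactSupport ((hvc i).mul_left)
    simp only [← integral_const_mul]
    have j3 : ∀ m : t, Integrable
        (fun x => ((η m y : ℝ) : ℂ) * (κ j i ((m : CN n), x) * v i x)) := fun m =>
      (j1 m).const_mul _
    rw [← integral_finsetSum Finset.univ (fun m _ => j3 m), ← integral_add j2
      (integrable_finsetSum Finset.univ (fun m _ => j3 m))]
    refine integral_congr_ae (Filter.Eventually.of_forall fun x => ?_)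
    simp only [e, sub_mul, Finset.sum_mul]
    rw [sub_add_eq_add_sub, eq_sub_iff_add_eq]
    congr 1
    exact Finset.sum_congr rfl fun m _ => by ring
  rw [hv j y]
  simp only [hk, Finset.sum_add_distrib]
  rw [Finset.sum_comm]
  have : ∀ m : t, ∑ i, ((η m y : ℝ) : ℂ) * ∫ x, κ j i ((m : CN n), x) * v i x = 0 := by
    intro m
    rw [← Finset.mul_sum, horth (m, j), mul_zero]
  simp only [this, Finset.sum_const_zero, add_zero]
  simp [TT]

end Pool.Agent.W19.FS.Fa
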