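import Pool.Agent.W19.FS.Ub2

/-!
# FS-FIL: the filtration in terms of components; FS-UB1: exact forms of type `(n,0)` vanish
-/

open scoped Manifold ContDiff Topology
open MeasureTheory

noncomputable section

namespace Pool.Agent.W19.FS.Fil

open Pool.Agent.W491.FS Pool.Agent.W19.FS.P3 Pool.Agent.W19.FS.Ub2

universe u

theorem main (h : S_TYPE) : S_FIL.{u} := by
  intro n X _ _ _ k p w
  constructor
  · intro hw
    -- the submodule of forms with vanishing components
    let S : Submodule ℂ (Forms n X k) :=
      { carrier := {w | ∀ p' : ℕ, (p' : ℤ) < p → ∀ c y, prj k p' (w.loc c y) = 0}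
        zero_mem' := fun p' _ c y => by
          rw [Forms.loc_zero]
          exact prj_zero h
        add_mem' := fun {a b} ha hb p' hp' c y => by
          rw [Forms.loc_add, Pi.add_apply, Pi.add_apply, prj_add h, ha p' hp' c y, hb p' hp' c y,
            add_zero]
        smul_mem' := fun r a ha p' hp' c y => by
          rw [Forms.loc_smul, Pi.smul_apply, Pi.smul_apply, (h n k).2.1, ha p' hp' c y]
          ext v
          simp }
    have hS : Fil n X p k ≤ S := by
      refine iSup_le fun p'' => iSup_le fun q'' => iSup_le fun hp => iSup_le fun hpq => ?_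
      intro a ha p' hp' c y
      refine (h n k).2.2.2.2.2.2.1 p' p'' q'' _ hpq ?_ (ha c y)
      intro he
      subst he
      omega
    exact hS hw
  · intro hw
    have hsum : w = ∑ p' ∈ Finset.range (k + 1), cmp h p' w := by
      refine Forms.ext fun c y _ => ?_
      rw [loc_sum]
      exact ((h n k).2.2.2.2.1 (w.loc c y)).symm
    rw [hsum]
    refine Submodule.sum_mem _ fun p' hp' => ?_
    have hpk : p' ≤ k := Nat.lt_succ_iff.1 (Finset.mem_range.1 hp')
    by_cases hlt : (p' : ℤ) < p
    · have h0 : cmp h p' w = 0 := by
        refine Forms.ext fun c y _ => ?_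
        exact hw p' hlt c y
      rw [h0]
      exact Submodule.zero_mem _
    · refine Submodule.mem_iSup_of_mem p' (Submodule.mem_iSup_of_mem (k - p')
        (Submodule.mem_iSup_of_mem (not_lt.1 hlt) (Submodule.mem_iSup_of_mem (by omega) ?_)))
      exact cmp_type h p' hpk w

end Pool.Agent.W19.FS.Fil
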