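import Pool.Agent.W19.FS.P1

/-!
# FS-IBP and FS-STK: integration by parts
-/

open scoped Manifold ContDiff Topology
open MeasureTheory

noncomputable section

namespace Pool.Agent.W19.FS.Ibp

open Pool.Agent.W491.FS Pool.Agent.W19.FS.P3 Pool.Agent.W19.FS.P1

variable {n : ℕ}

theorem int_fderiv {F : CN n → ℂ} (hF : ContDiff ℝ ∞ F) {K : Set (CN n)} (hK : IsCompact K)
    (h0 : ∀ z, z ∉ K → F z = 0) (v : CN n) : ∫ z, fderiv ℝ F z v = 0 := by
  have hc : HasCompactSupport F := HasCompactSupport.intro hK h0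
  have hcd : HasCompactSupport (fun z => fderiv ℝ F z v) := hc.fderiv_apply ℝ v
  have hct : Continuous (fun z => fderiv ℝ F z v) :=
    (hF.continuous_fderiv (by simp)).clm_apply continuous_const
  have := integral_mul_fderiv_eq_neg_fderiv_mul_of_integrable (μ := volume) (𝕜 := ℂ)
    (f := fun _ : CN n => (1 : ℂ)) (g := F) (v := v) (by simp)
    (by simpa using hct.integrable_of_hasCompactSupport hcd)
    (by simpa using hF.continuous.integrable_of_hasCompactSupport hc)
    (fun x _ => differentiableAt_const _)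
    (fun x _ => hF.contDiffAt.differentiableAt (by simp))
  simpa using this

theorem setInt_fderiv {U K : Set (CN n)} (hU : IsOpen U) (hK : IsCompact K) (hKU : K ⊆ U)
    {f : CN n → ℂ} (hf : ContDiffOn ℝ ∞ f U) (h0 : ∀ z ∈ U, z ∉ K → f z = 0) (v : CN n) :
    ∫ z in U, fderiv ℝ f z v = 0 := by
  have hFz : ∀ z, z ∉ K → U.indicator f z = 0 := by
    intro z hz
    by_cases hzU : z ∈ U
    · rw [Set.indicator_of_mem hzU, h0 z hzU hz]
    · rw [Set.indicator_of_notMem hzU]
  have hFs : ContDiff ℝ ∞ (U.indicator f) :=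
    contDiff_of_supp hU hK hKU (hf.congr fun z hz => Set.indicator_of_mem hz f) hFz
  have h1 : ∫ z in U, fderiv ℝ f z v = ∫ z in U, fderiv ℝ (U.indicator f) z v := by
    refine setIntegral_congr_fun hU.measurableSet fun z hz => ?_
    have : f =ᶠ[𝓝 z] U.indicator f := by
      filter_upwards [hU.mem_nhds hz] with w hw
      rw [Set.indicator_of_mem hw]
    simp only [this.fderiv_eq]
  rw [h1, setIntegral_eq_integral_of_forall_compl_eq_zero, int_fderiv hFs hK hFz]
  intro z hz
  have : U.indicator f =ᶠ[𝓝 z] fun _ => 0 := by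
    filter_upwards [hK.isClosed.isOpen_compl.mem_nhds (fun h => hz (hKU h))] with w hw
    exact hFz w hw
  rw [this.fderiv_eq]
  simp

theorem fderiv_contOn {U : Set (CN n)} (hU : IsOpen U) {f : CN n → ℂ} (hf : ContDiffOn ℝ ∞ f U)
    (v : CN n) : ContinuousOn (fun z => fderiv ℝ f z v) U :=
  (hf.continuousOn_fderiv_of_isOpen hU (by simp)).clm_apply continuousOn_const

theorem fderiv_zero {f : CN n → ℂ} {y : CN n} (h : ∀ᶠ z in 𝓝 y, f z = 0) :
    fderiv ℝ f y = 0 := by
  have h1 : f =ᶠ[𝓝 y] fun _ => 0 := h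
  rw [h1.fderiv_eq]
  simp

theorem ev_zero {U K : Set (CN n)} (hU : IsOpen U) (hK : IsCompact K)
    {f : CN n → ℂ} (h0 : ∀ z ∈ U, z ∉ K → f z = 0) {z : CN n} (hz : z ∈ U) (hzK : z ∉ K) :
    ∀ᶠ w in 𝓝 z, f w = 0 := by
  filter_upwards [hU.mem_nhds hz, hK.isClosed.isOpen_compl.mem_nhds hzK] with w h1 h2
  exact h0 w h1 h2

theorem int_fd {U K : Set (CN n)} (hU : IsOpen U) (hK : IsCompact K) (hKU : K ⊆ U)
    {f : CN n → ℂ} (hf : ContDiffOn ℝ ∞ f U) (h0 : ∀ z ∈ U, z ∉ K → f z = 0) (v : CN n) :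
    IntegrableOn (fun z => fderiv ℝ f z v) U :=
  integrableOn_supp hU hK hKU (fderiv_contOn hU hf v) fun z hz hzK => by
    rw [fderiv_zero (ev_zero hU hK h0 hz hzK)]
    simp

theorem setInt_pdb {U K : Set (CN n)} (hU : IsOpen U) (hK : IsCompact K) (hKU : K ⊆ U)
    {f : CN n → ℂ} (hf : ContDiffOn ℝ ∞ f U) (h0 : ∀ z ∈ U, z ∉ K → f z = 0) (j : Fin n) :
    ∫ z in U, pdb j f z = 0 := by
  unfold pdb comp01
  simp only [smul_eq_mul]
  rw [integral_const_mul, integral_add (int_fd hU hK hKU hf h0 _)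
    ((int_fd hU hK hKU hf h0 _).const_mul _), integral_const_mul,
    setInt_fderiv hU hK hKU hf h0, setInt_fderiv hU hK hKU hf h0]
  simp

theorem main : S_IBP := by
  intro n U K b g j hU hK hKU hb h0 hg
  have hbg : ContDiffOn ℝ ∞ (fun z => b z * g z) U := hb.mul hg
  have h0' : ∀ z ∈ U, z ∉ K → b z * g z = 0 := fun z hz hzK => by rw [h0 z hz hzK, zero_mul]
  have h1 := setInt_pdb hU hK hKU hbg h0' j
  have h2 : ∀ z ∈ U, pdb j (fun z => b z * g z) z = pdb j b z * g z + b z * pdb j g z := by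
    intro z hz
    have hbd : DifferentiableAt ℝ b z := (hb.contDiffAt (hU.mem_nhds hz)).differentiableAt (by simp)
    have hgd : DifferentiableAt ℝ g z := (hg.contDiffAt (hU.mem_nhds hz)).differentiableAt (by simp)
    unfold pdb comp01
    rw [fderiv_fun_mul hbd hgd]
    simp only [add_apply, smul_apply, smul_eq_mul]
    ring
  rw [setIntegral_congr_fun hU.measurableSet h2, integral_add] at h1
  · exact eq_neg_of_add_eq_zero_left h1
  · refine integrableOn_supp hU hK hKU ((pdb_contOn hU hb j).mul hg.continuousOn) ?_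
    intro z hz hzK
    rw [pdb_zero (ev_zero hU hK h0 hz hzK), zero_mul]
  · refine integrableOn_supp hU hK hKU (hb.continuousOn.mul (pdb_contOn hU hg j)) ?_
    intro z hz hzK
    rw [h0 z hz hzK, zero_mul]

theorem stk : S_STK := by
  intro n k U K f hU hK hKU hf h0 v
  have hs : ∀ w : Fin k → CN n, ContDiffOn ℝ ∞ (fun z => f z w) U := fun w =>
    (ContinuousAlternatingMap.apply ℝ (CN n) ℂ w).contDiff.comp_contDiffOn hf
  have hz : ∀ w : Fin k → CN n, ∀ z ∈ U, z ∉ K → f z w = 0 := fun w z hz hzK => by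
    rw [h0 z hz hzK]; rfl
  have h2 : ∀ z ∈ U, extDeriv f z v
      = ∑ i : Fin (k + 1), (-1 : ℂ) ^ (i : ℕ) * fderiv ℝ (fun z => f z (i.removeNth v)) z (v i) := by
    intro z hzU
    rw [extDeriv_apply ((hf.contDiffAt (hU.mem_nhds hzU)).differentiableAt (by simp))]
    refine Finset.sum_congr rfl fun i _ => ?_
    rw [zsmul_eq_mul]
    push_cast
    rfl
  rw [setIntegral_congr_fun hU.measurableSet h2, integral_finsetSum _ (fun i _ =>
    (int_fd hU hK hKU (hs _) (hz _) _).const_mul _)]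
  refine Finset.sum_eq_zero fun i _ => ?_
  rw [integral_const_mul, setInt_fderiv hU hK hKU (hs _) (hz _), mul_zero]

end Pool.Agent.W19.FS.Ibp
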