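import Pool.Agent.W19.FS.Ub2

/-!
# FS-P1: closed `(0,n)`-forms are orthogonal to exact forms
-/

open scoped Manifold ContDiff Topology
open MeasureTheory

noncomputable section

namespace Pool.Agent.W19.FS.P1

open Pool.Agent.W491.FS Pool.Agent.W19.FS.P3 Pool.Agent.W19.FS.Ub2

universe u

section aux

variable {n : ℕ} {X : Type u} [TopologicalSpace X] [ChartedSpace (CN n) X]

theorem extDeriv_of_eventually_zero {k : ℕ} {f : CN n → Alt n k} {y : CN n}
    (h : ∀ᶠ z in 𝓝 y, f z = 0) : extDeriv f y = 0 := by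
  have h1 : f =ᶠ[𝓝 y] fun _ => 0 := h
  rw [h1.extDeriv_eq]
  have h2 : fderiv ℝ (fun _ : CN n => (0 : Alt n k)) y = 0 := by simp
  rw [extDeriv, h2]
  ext v
  simp [ContinuousAlternatingMap.alternatizeUncurryFin_apply]

theorem extD_off [IsManifold 𝓘(ℂ, CN n) ω X] {k : ℕ} {C : Set X} (hC : IsClosed C)
    (w : Forms n X k)
    (h : ∀ (c' : atlas (CN n) X), ∀ y ∈ c'.1.target, c'.1.symm y ∉ C → w.loc c' y = 0) :
    ∀ (c' : atlas (CN n) X), ∀ y ∈ c'.1.target, c'.1.symm y ∉ C →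
      (extD n X k w).loc c' y = 0 := by
  intro c' y hy hn
  rw [extD_loc w c' hy]
  apply extDeriv_of_eventually_zero
  have h1 : ∀ᶠ z in 𝓝 y, c'.1.symm z ∈ Cᶜ :=
    (c'.1.continuousAt_symm hy).preimage_mem_nhds (hC.isOpen_compl.mem_nhds hn)
  filter_upwards [c'.1.open_target.mem_nhds hy, h1] with z hz1 hz2
  exact h c' z hz1 hz2

theorem closed_image [T2Space X] (c : atlas (CN n) X) {K : Set (CN n)} (hK : IsCompact K)
    (hKt : K ⊆ c.1.target) : IsClosed (c.1.symm '' K) :=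
  (hK.image_of_continuousOn (c.1.continuousOn_symm.mono hKt)).isClosed

theorem integrableOn_supp {U K : Set (CN n)} (hU : IsOpen U) (hK : IsCompact K) (hKU : K ⊆ U)
    {f : CN n → ℂ} (hf : ContinuousOn f U) (h0 : ∀ z ∈ U, z ∉ K → f z = 0) :
    IntegrableOn f U := by
  refine IntegrableOn.of_forall_sdiff_eq_zero ((hf.mono hKU).integrableOn_compact hK)
    hU.measurableSet ?_
  intro z hz
  exact h0 z hz.1 hz.2

theorem pdb_contOn {U : Set (CN n)} (hU : IsOpen U) {f : CN n → ℂ} (hf : ContDiffOn ℝ ∞ f U)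
    (j : Fin n) : ContinuousOn (pdb j f) U := by
  have h1 : ContinuousOn (fderiv ℝ f) U := hf.continuousOn_fderiv_of_isOpen hU (by simp)
  unfold pdb comp01
  exact ((h1.clm_apply continuousOn_const).add
    ((h1.clm_apply continuousOn_const).const_smul (Complex.I))).const_smul (1 / 2 : ℂ)

theorem pdb_zero {f : CN n → ℂ} {y : CN n} (h : ∀ᶠ z in 𝓝 y, f z = 0) (j : Fin n) :
    pdb j f y = 0 := by
  have h1 : f =ᶠ[𝓝 y] fun _ => 0 := h
  have h2 : fderiv ℝ f y = 0 := by rw [h1.fderiv_eq]; simp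
  unfold pdb comp01
  rw [h2]
  simp

theorem pdb_conj {f : CN n → ℂ} {y : CN n} (hf : DifferentiableAt ℝ f y) (j : Fin n) :
    pdb j (fun z => starRingEnd ℂ (f z)) y = starRingEnd ℂ (pd j f y) := by
  have h1 : fderiv ℝ (fun z => starRingEnd ℂ (f z)) y
      = Complex.conjCLE.toContinuousLinearMap.comp (fderiv ℝ f y) :=
    (Complex.conjCLE.toContinuousLinearMap.hasFDerivAt.comp y hf.hasFDerivAt).fderiv
  unfold pdb comp01 pd comp10
  rw [h1]
  have h2 : starRingEnd ℂ (1 / 2 : ℂ) = 1 / 2 := by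
    rw [map_div₀, map_one, Complex.conj_ofNat]
  simp only [smul_eq_mul, map_mul, map_sub, h2, Complex.conj_I]
  simp only [ContinuousLinearMap.comp_apply, ContinuousLinearEquiv.coe_coe,
    Complex.conjCLE_apply]
  ring

end aux

theorem main (h1 : S_TYPE) (h3 : S_LOCA) (h4 : S_LOCC) (h5 : S_IBP) (h6 : S_PU.{u})
    (h7 : S_P0.{u}) : S_P1.{u} := by
  intro k X _ _ _ _ _ I hI h hh hd β
  obtain ⟨N, c, ρ, K, hρs, hK, hρK, hρr, hρ1⟩ := h6 (k + 1) X
  have hρ0 : ∀ j, ∀ (c' : atlas (CN (k + 1)) X), ∀ y, c'.1.symm y ∉ (c j).1.symm '' K j →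
      ρ j (c'.1.symm y) = 0 := by
    intro j c' y hy
    by_contra hne
    exact hy (hρK j _ hne)
  have hsum : β = ∑ j, mulF (ρ j) (hρs j) β := by
    refine Forms.ext fun c' y hy => ?_
    rw [loc_sum]
    simp only [mulF, Forms.loc_mk]
    rw [← Finset.sum_smul, hρ1, one_smul]
  have hadd : ∀ (s : Finset (Fin N)) (a : Fin N → Forms (k + 1) X (k + 1)),
      I (dH h (∑ i ∈ s, a i)) = ∑ i ∈ s, I (dH h (a i)) := by
    intro s a
    classical
    induction s using Finset.induction_on with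
    | empty =>
      have h0 : dH h (0 : Forms (k + 1) X (k + 1)) = (0 : ℂ) • dH h (0 : Forms (k + 1) X (k + 1)) := by
        rw [← dH_smul_right h1]
        congr 1
        refine Forms.ext fun c y _ => ?_
        ext v
        simp
      rw [Finset.sum_empty, Finset.sum_empty, h0, hI.smul 0 _ (h7 (k + 1) X h 0 hh), zero_mul]
    | insert i s hi ih =>
      rw [Finset.sum_insert hi, Finset.sum_insert hi, dH_add_right h1,
        hI.add _ _ (h7 _ X h _ hh) (h7 _ X h _ hh), ih]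
  rw [hsum, map_sum, hadd]
  refine Finset.sum_eq_zero fun i _ => ?_
  -- one chart
  have hoff : ∀ (c' : atlas (CN (k + 1)) X), ∀ y ∈ c'.1.target,
      c'.1.symm y ∉ (c i).1.symm '' K i → (mulF (ρ i) (hρs i) β).loc c' y = 0 := by
    intro c' y hy hn
    simp only [mulF, Forms.loc_mk, hρ0 i c' y hn]
    ext v
    simp
  have hoffd := extD_off (closed_image (c i) (hK i).1 (hK i).2) _ hoff
  rw [hI.loc (c i) (K i) _ (hK i).1 (hK i).2 (h7 _ X h _ hh) (fun c' y hy hn => by
    simp only [dH, hoffd c' y hy hn, prj_zero h1]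
    simp)]
  set F := (mulF (ρ i) (hρs i) β).loc (c i) with hF
  set U := (c i).1.target with hU
  have hUo : IsOpen U := (c i).1.open_target
  have hFs : ContDiffOn ℝ ∞ F U := (mulF (ρ i) (hρs i) β).isForm.smooth (c i)
  have hF0 : ∀ z ∈ U, z ∉ K i → F z = 0 := by
    intro z hz hzK
    refine hoff (c i) z hz ?_
    rintro ⟨z', hz', hzz⟩
    have : z' = z := (c i).1.symm.injOn ((hK i).2 hz') hz hzz
    exact hzK (this ▸ hz')
  let b : Fin (k + 1) → CN (k + 1) → ℂ := fun j z => prj k 0 (F z) (fun i => eb (j.succAbove i))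
  have hbs : ∀ j, ContDiffOn ℝ ∞ (b j) U := by
    intro j
    obtain ⟨P, hP⟩ := (h1 (k + 1) k).1 0
    have := ((ContinuousAlternatingMap.apply ℝ (CN (k + 1)) ℂ
      (fun i : Fin k => (eb (j.succAbove i) : CN (k + 1)))).contDiff.comp
      P.contDiff).comp_contDiffOn hFs
    refine this.congr fun z _ => ?_
    simp only [Function.comp_apply, hP]
    rfl
  have hb0 : ∀ j, ∀ z ∈ U, z ∉ K i → b j z = 0 := by
    intro j z hz hzK
    simp only [b, hF0 z hz hzK, prj_zero h1]
    rfl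
  let g : CN (k + 1) → ℂ := fun z => h.loc (c i) z (ebt (k + 1))
  have hgs : ContDiffOn ℝ ∞ g U :=
    (ContinuousAlternatingMap.apply ℝ (CN (k + 1)) ℂ (ebt (k + 1))).contDiff.comp_contDiffOn
      (h.isForm.smooth (c i))
  have hgcs : ContDiffOn ℝ ∞ (fun z => starRingEnd ℂ (g z)) U :=
    Complex.conjCLE.contDiff.comp_contDiffOn hgs
  have hpd : ∀ y ∈ U, ∀ j, pdb j (fun z => starRingEnd ℂ (g z)) y = 0 := by
    intro y hy j
    have hd1 : extDeriv (h.loc (c i)) y = 0 := by
      rw [← extD_loc h (c i) hy, hd]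
      rfl
    have := (h4 (k + 1) (h.loc (c i)) y (h.differentiableAt (c i) hy)
      (Filter.Eventually.of_forall fun z => hh (c i) z)).1 hd1 j
    rw [pdb_conj ((hgs.contDiffAt (hUo.mem_nhds hy)).differentiableAt (by simp)), this, map_zero]
  have hnear : ∀ j, ∀ z ∈ U, z ∉ K i → pdb j (b j) z = 0 := by
    intro j z hz hzK
    apply pdb_zero
    filter_upwards [hUo.mem_nhds hz, (hK i).1.isClosed.isOpen_compl.mem_nhds hzK] with w hw1 hw2
    exact hb0 j w hw1 hw2
  have hint : ∀ j : Fin (k + 1), IntegrableOn (fun z => (-1 : ℂ) ^ (j : ℕ) *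
      (pdb j (b j) z * starRingEnd ℂ (g z))) U := by
    intro j
    refine integrableOn_supp hUo (hK i).1 (hK i).2 ?_ ?_
    · exact continuousOn_const.mul ((pdb_contOn hUo (hbs j) j).mul hgcs.continuousOn)
    · intro z hz hzK
      rw [hnear j z hz hzK]
      ring
  have hval : ∀ y ∈ U, dH h (extD (k + 1) X k (mulF (ρ i) (hρs i) β)) (c i) y
      = ∑ j : Fin (k + 1), (-1 : ℂ) ^ (j : ℕ) * (pdb j (b j) y * starRingEnd ℂ (g y)) := by
    intro y hy
    simp only [dH]
    rw [extD_loc _ (c i) hy]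
    have := h3 k F y ((mulF (ρ i) (hρs i) β).differentiableAt (c i) hy)
    rw [this, Finset.sum_mul]
    exact Finset.sum_congr rfl fun j _ => by ring
  rw [setIntegral_congr_fun hUo.measurableSet hval, integral_finsetSum _ (fun j _ => hint j)]
  refine Finset.sum_eq_zero fun j _ => ?_
  rw [integral_const_mul, h5 (k + 1) U (K i) (b j) _ j hUo (hK i).1 (hK i).2 (hbs j) (hb0 j) hgcs,
    setIntegral_congr_fun (g := fun _ => (0 : ℂ)) hUo.measurableSet
      (fun y hy => by simp only [hpd y hy j, mul_zero])]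
  simp

end Pool.Agent.W19.FS.P1
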