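import Pool.Agent.W491.FS.Stm

/-!
# FS-P3: finite codimension of the image of the exterior derivative in the `(0,n)`-forms
-/

open scoped Manifold ContDiff Topology
open MeasureTheory

noncomputable section

namespace Pool.Agent.W19.FS.P3

open Pool.Agent.W491.FS

universe u

section aux

variable {n : ℕ} {X : Type u} [TopologicalSpace X] [ChartedSpace (CN n) X]

theorem loc_sum {k : ℕ} {ι : Type*} (s : Finset ι) (a : ι → Forms n X k) (c : atlas (CN n) X)
    (y : CN n) : (∑ i ∈ s, a i).loc c y = ∑ i ∈ s, (a i).loc c y := by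
  classical
  induction s using Finset.induction_on with
  | empty => simp
  | insert i s hi ih =>
    rw [Finset.sum_insert hi, Finset.sum_insert hi, Forms.loc_add, Pi.add_apply, Pi.add_apply, ih]

theorem fderiv_trans_smul [IsManifold 𝓘(ℂ, CN n) ω X] (c c' : atlas (CN n) X) {y : CN n}
    (hy : y ∈ (c.1.symm.trans c'.1).source) (l : ℂ) (v : CN n) :
    fderiv ℝ (c.1.symm.trans c'.1) y (l • v) = l • fderiv ℝ (c.1.symm.trans c'.1) y v := by
  have h1 : DifferentiableAt ℂ (c.1.symm.trans c'.1) y :=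
    ((trans_contDiffOn_complex c c').contDiffAt
      ((c.1.symm.trans c'.1).open_source.mem_nhds hy)).differentiableAt (by simp)
  rw [(h1.hasFDerivAt.restrictScalars ℝ).fderiv]
  simp

theorem mem_source {c c' : atlas (CN n) X} {y : CN n} (hy : y ∈ c'.1.target)
    (h : c'.1.symm y ∈ c.1.source) : y ∈ (c'.1.symm.trans c.1).source :=
  (trans_source_iff c' c y).2 ⟨hy, h⟩

/-- the type of a form supported in a chart can be read off in this chart -/
theorem type_of_loc [IsManifold 𝓘(ℂ, CN n) ω X] {k p q : ℕ} (c : atlas (CN n) X)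
    (w : Forms n X k) (h1 : ∀ y ∈ c.1.target, IsType p q (w.loc c y))
    (h2 : ∀ (c' : atlas (CN n) X), ∀ y ∈ c'.1.target, c'.1.symm y ∉ c.1.source →
      w.loc c' y = 0) : w ∈ TypeForms n X p q k := by
  intro c' y
  by_cases hy : y ∈ c'.1.target
  · by_cases hs : c'.1.symm y ∈ c.1.source
    · have hy2 := mem_source hy hs
      rw [w.isForm.compat c' c y hy2]
      intro l v
      have := h1 _ (trans_mem_target hy2) l
        (fun i => fderiv ℝ (c'.1.symm.trans c.1) y (v i))
      rw [ContinuousAlternatingMap.compContinuousLinearMap_apply,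
        ContinuousAlternatingMap.compContinuousLinearMap_apply]
      refine Eq.trans ?_ this
      congr 1
      funext i
      exact fderiv_trans_smul c' c hy2 l (v i)
    · rw [h2 c' y hy hs]
      exact IsType.zero
  · rw [w.isForm.off c' y hy]
    exact IsType.zero

/-- uniqueness -/
theorem eq_of_coef [IsManifold 𝓘(ℂ, CN n) ω X] (hD : S_DET) (c : atlas (CN n) X)
    (a b : Forms n X n) (ha : a ∈ TypeForms n X 0 n n) (hb : b ∈ TypeForms n X 0 n n)
    (h1 : ∀ y ∈ c.1.target, a.loc c y (ebt n) = b.loc c y (ebt n))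
    (h2 : ∀ (c' : atlas (CN n) X), ∀ y ∈ c'.1.target, c'.1.symm y ∉ c.1.source →
      a.loc c' y = b.loc c' y) : a = b := by
  obtain ⟨D, -, -, hD⟩ := hD n
  refine Forms.ext fun c' y hy => ?_
  by_cases hs : c'.1.symm y ∈ c.1.source
  · have hy2 := mem_source hy hs
    rw [a.isForm.compat c' c y hy2, b.isForm.compat c' c y hy2]
    have h3 : a.loc c ((c'.1.symm.trans c.1) y) = b.loc c ((c'.1.symm.trans c.1) y) := by
      rw [hD _ (ha c _), hD _ (hb c _), h1 _ (trans_mem_target hy2)]
    rw [h3]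
  · exact h2 c' y hy hs

theorem contDiff_of_supp {F : Type*} [NormedAddCommGroup F] [NormedSpace ℝ F] {U K : Set (CN n)}
    (hU : IsOpen U) (hK : IsCompact K) (hKU : K ⊆ U) {f : CN n → F} (hf : ContDiffOn ℝ ∞ f U)
    (h0 : ∀ y, y ∉ K → f y = 0) : ContDiff ℝ ∞ f := by
  rw [contDiff_iff_contDiffAt]
  intro y
  by_cases hy : y ∈ U
  · exact hf.contDiffAt (hU.mem_nhds hy)
  · have hyK : y ∈ Kᶜ := fun h => hy (hKU h)
    have : f =ᶠ[𝓝 y] fun _ => 0 := by
      filter_upwards [hK.isClosed.isOpen_compl.mem_nhds hyK] with z hz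
      exact h0 z hz
    exact contDiffAt_const.congr_of_eventuallyEq this

theorem det_ebt (n : ℕ) : starRingEnd ℂ (Matrix.det (Matrix.of (ebt n))) = 1 := by
  have : Matrix.of (ebt n) = (1 : Matrix (Fin n) (Fin n) ℂ) := by
    ext i j
    simp [ebt, eb, Matrix.one_apply, Pi.single_apply, eq_comm]
  rw [this]
  simp

end aux

theorem main (h1 : S_TYPE) (h2 : S_DET) (h3 : S_FA) (h4 : S_EXT.{u}) (h5 : S_PU.{u})
    (_h6 : S_FIL.{u}) (h7 : S_P0.{u}) (h8 : S_LSOL.{u}) (h9 : S_KER.{u}) : S_P3.{u} := by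
  intro k X _ _ _ _ _ I hI
  obtain ⟨N, c, ρ, K, hρs, hK, hρK, hρr, hρ1⟩ := h5 (k + 1) X
  choose δ ψ hδ0 hψs hψ0 hth hsol using fun i => h8 k X (c i) (K i) (hK i).1 (hK i).2
  have hρ0 : ∀ j, ∀ y ∈ (c j).1.target, y ∉ K j → ρ j ((c j).1.symm y) = 0 := by
    intro j y hy hyK
    by_contra hne
    obtain ⟨z, hz, hzy⟩ := hρK j _ hne
    have : z = y := (c j).1.symm.injOn ((hK j).2 hz) hy hzy
    exact hyK (this ▸ hz)
  choose κ hκs hκc hκ0 hκ using fun j i => h9 (k + 1) X (c i) (c j) (K i) (K j) (δ i) (ψ i)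
    (fun y => ρ j ((c j).1.symm y)) (hK i).1 (hK i).2 (hK j).1 (hK j).2 (hδ0 i) (hψs i) (hψ0 i)
    (hth i) (hρs j (c j)) (hρ0 j)
  obtain ⟨M, φ, hφs, hφ⟩ := h3 (k + 1) N κ (Nat.succ_le_succ (Nat.zero_le k)) hκs hκc
  obtain ⟨D, hDd, hDt, hD⟩ := h2 (k + 1)
  have hD1 : D (ebt (k + 1)) = 1 := by rw [hDd, det_ebt]
  -- the forms
  choose P hP1 hP2 using fun (m : Fin M) (i : Fin N) => h4 (k + 1) X (k + 1) (c i)
    (fun y => (ρ i ((c i).1.symm y) * starRingEnd ℂ (φ m i y)) • D) (K i) (hK i).1 (hK i).2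
    (by
      refine ContDiffOn.smul ((hρs i (c i)).mul ?_) contDiffOn_const
      exact (Complex.conjCLE.contDiff.comp (hφs m i)).contDiffOn)
    (fun y hy hyK => by rw [hρ0 i y hy hyK]; ext v; simp)
  have hKs : ∀ i, (c i).1.symm '' K i ⊆ (c i).1.source := by
    rintro i _ ⟨z, hz, rfl⟩
    exact (c i).1.map_target ((hK i).2 hz)
  have hPt : ∀ m i, P m i ∈ TypeForms (k + 1) X 0 (k + 1) (k + 1) := by
    intro m i
    refine type_of_loc (c i) _ (fun y hy => ?_) (fun c' y hy hn => ?_)
    · rw [hP1 m i y hy]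
      exact hDt.smul _
    · exact hP2 m i c' y hy fun h => hn (hKs i h)
  refine ⟨M, fun m => ∑ i, P m i, fun m => Submodule.sum_mem _ fun i _ => hPt m i, ?_⟩
  intro g hg hort
  -- coefficient functions
  let f : Fin N → CN (k + 1) → ℂ := fun i y =>
    ρ i ((c i).1.symm y) * g.loc (c i) y (ebt (k + 1))
  have hf0 : ∀ i y, y ∉ K i → f i y = 0 := by
    intro i y hy
    by_cases hyt : y ∈ (c i).1.target
    · simp only [f, hρ0 i y hyt hy, zero_mul]
    · simp only [f, g.isForm.off (c i) y hyt]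
      simp
  have hfs : ∀ i, ContDiff ℝ ∞ (f i) := by
    intro i
    refine contDiff_of_supp (c i).1.open_target (hK i).1 (hK i).2 ?_ (hf0 i)
    refine (hρs i (c i)).mul ?_
    exact (ContinuousAlternatingMap.apply ℝ (CN (k + 1)) ℂ (ebt (k + 1))).contDiff.comp_contDiffOn
      (g.isForm.smooth (c i))
  have hfc : ∀ i, HasCompactSupport (f i) := fun i => HasCompactSupport.intro (hK i).1 (hf0 i)
  -- orthogonality
  have hadd : ∀ (m : Fin M) (s : Finset (Fin N)),
      I (dH (∑ i ∈ s, P m i) g) = ∑ i ∈ s, I (dH (P m i) g) := by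
    intro m s
    classical
    induction s using Finset.induction_on with
    | empty =>
      have h0 : dH (0 : Forms (k + 1) X (k + 1)) g = (0 : ℂ) • dH (0 : Forms (k + 1) X (k + 1)) g := by
        funext c y
        simp [dH]
      rw [Finset.sum_empty, Finset.sum_empty, h0,
        hI.smul 0 _ (h7 (k + 1) X 0 g (Submodule.zero_mem _)), zero_mul]
    | insert i s hi ih =>
      have h0 : dH (P m i + ∑ i ∈ s, P m i) g = dH (P m i) g + dH (∑ i ∈ s, P m i) g := by
        funext c y
        simp only [dH, Forms.loc_add, Pi.add_apply, ContinuousAlternatingMap.add_apply, map_add]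
        ring
      rw [Finset.sum_insert hi, Finset.sum_insert hi, h0, hI.add _ _ (h7 _ X _ g (hPt m i))
        (h7 _ X _ g (Submodule.sum_mem _ fun i _ => hPt m i)), ih]
  have hIm : ∀ m i, I (dH (P m i) g) = ∫ y, φ m i y * f i y := by
    intro m i
    rw [hI.loc (c i) (K i) _ (hK i).1 (hK i).2 (h7 _ X _ g (hPt m i))
      (fun c' y hy hn => by simp [dH, hP2 m i c' y hy hn])]
    have hR : ∫ y, φ m i y * f i y = ∫ y in (c i).1.target, φ m i y * f i y :=
      (setIntegral_eq_integral_of_forall_compl_eq_zero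
      (fun y hy => by rw [hf0 i y (fun h => hy ((hK i).2 h)), mul_zero])).symm
    rw [hR]
    refine setIntegral_congr_fun (c i).1.open_target.measurableSet fun y hy => ?_
    obtain ⟨r, -, hr⟩ := hρr i ((c i).1.symm y)
    have hprj : prj (k + 1) 0 (g.loc (c i) y) = g.loc (c i) y :=
      (h1 (k + 1) (k + 1)).2.2.2.2.2.1 0 (k + 1) _ (by omega) (hg (c i) y)
    simp only [dH, f, hP1 m i y hy, hprj, ContinuousAlternatingMap.smul_apply, hD1, smul_eq_mul,
      mul_one, map_mul, hr, Complex.conj_ofReal, Complex.conj_conj]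
    ring
  obtain ⟨v, hvs, hvc, hv⟩ := hφ f hfs hfc (fun m => by
    rw [← hort m, hadd m]
    exact Finset.sum_congr rfl fun i _ => (hIm m i).symm)
  have hv0 : ∀ i, ∀ z ∉ K i, v i z = 0 := by
    intro i z hz
    have := hv i z
    rw [hf0 i z hz] at this
    simpa [hκ0 i _ z hz] using this
  choose gg ww β hgg hww hgw using fun i => hsol i (v i) (hvs i) (hv0 i)
  have hWt : (∑ i, ww i) ∈ TypeForms (k + 1) X 0 (k + 1) (k + 1) :=
    Submodule.sum_mem _ fun i _ => (hww i).type
  -- the key identity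
  have hkey : ∀ j, mulF (ρ j) (hρs j) ((∑ i, ww i) + g) = gg j := by
    intro j
    refine eq_of_coef h2 (c j) _ _ (fun c' y => ?_) (hgg j).type (fun y hy => ?_)
      (fun c' y hy hn => ?_)
    · exact (Submodule.add_mem _ hWt hg c' y).smul _
    · have hc := hv j y
      have hk : ∀ i, ρ j ((c j).1.symm y) * (ww i).loc (c j) y (ebt (k + 1))
          = ∫ x, κ j i (y, x) * v i x := fun i => hκ j i (v i) (hvs i) (hv0 i) (ww i) (hww i) y hy
      have hg1 := (hgg j).coef y hy
      rw [hg1]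
      simp only [mulF, Forms.loc_mk, Forms.loc_add, Pi.add_apply, loc_sum,
        ContinuousAlternatingMap.smul_apply, ContinuousAlternatingMap.add_apply,
        ContinuousAlternatingMap.sum_apply, smul_eq_mul, mul_add, Finset.mul_sum, hk]
      rw [sub_eq_iff_eq_add] at hc
      rw [hc, add_comm]
    · rw [(hgg j).off c' y hy (fun h => hn (hKs j h))]
      have : ρ j (c'.1.symm y) = 0 := by
        by_contra hne
        exact hn (hKs j (hρK j _ hne))
      simp only [mulF, Forms.loc_mk, this]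
      ext v
      simp
  have hsum : (∑ i, ww i) + g = ∑ j, gg j := by
    simp only [← hkey]
    refine Forms.ext fun c' y hy => ?_
    rw [loc_sum]
    simp only [mulF, Forms.loc_mk]
    rw [← Finset.sum_smul, hρ1, one_smul]
  refine ⟨∑ j, β j, ?_⟩
  have hfin : g - extD (k + 1) X k (∑ j, β j) = ∑ j, (gg j - ww j - extD (k + 1) X k (β j)) := by
    rw [Finset.sum_sub_distrib, Finset.sum_sub_distrib, ← hsum, map_sum]
    abel
  rw [hfin]
  exact Submodule.sum_mem _ fun j _ => hgw j

end Pool.Agent.W19.FS.P3
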