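import Pool.Agent.W19.FS.Ub2

/-!
# FS-UB1: exact forms of type `(n,0)` vanish
-/

open scoped Manifold ContDiff Topology
open MeasureTheory

noncomputable section

namespace Pool.Agent.W19.FS.Ub1

open Pool.Agent.W491.FS Pool.Agent.W19.FS.P3 Pool.Agent.W19.FS.Ub2

universe u

theorem main (h1 : S_TYPE) (h2 : S_DET) (h3 : S_INT.{u}) (h4 : S_CONJ.{u}) (h5 : S_P0.{u})
    (h6 : S_P1.{u}) : S_UB1.{u} := by
  intro k X _ _ _ _ _ w hw
  obtain ⟨I, hI⟩ := h3 (k + 1) X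
  obtain ⟨J, hJ1, hJ2, hJ3⟩ := h4 (k + 1) X
  have hT : extD (k + 1) X k w ∈ TypeForms (k + 1) X (k + 1) 0 (k + 1) := by
    have hle : Fil (k + 1) X ((k : ℤ) + 1) (k + 1) ≤ TypeForms (k + 1) X (k + 1) 0 (k + 1) := by
      refine iSup_le fun p' => iSup_le fun q' => iSup_le fun hp => iSup_le fun hpq => ?_
      have hp' : p' = k + 1 := by omega
      have hq' : q' = 0 := by omega
      subst hp' hq'
      exact le_rfl
    exact hle hw
  have hg : J (k + 1) (extD (k + 1) X k w) ∈ TypeForms (k + 1) X 0 (k + 1) (k + 1) :=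
    hJ3 _ _ _ _ hT
  have hd : extD (k + 1) X (k + 1) (J (k + 1) (extD (k + 1) X k w)) = 0 := by
    rw [← hJ2 k w, extD_extD]
  have h0 : I (dH (J (k + 1) (extD (k + 1) X k w)) (J (k + 1) (extD (k + 1) X k w))) = 0 := by
    have := h6 k X I hI _ hg hd (J k w)
    rwa [hJ2 k w] at this
  set a := J (k + 1) (extD (k + 1) X k w) with ha
  have hfix : ∀ c y, prj (k + 1) 0 (a.loc c y) = a.loc c y :=
    fun c y => (h1 (k + 1) (k + 1)).2.2.2.2.2.1 0 (k + 1) _ (by omega) (hg c y)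
  obtain ⟨r, hr0, hr, hr1⟩ := hI.pos (dH a a) (h5 (k + 1) X a a hg) (fun c y =>
    ⟨Complex.normSq (a.loc c y (ebt (k + 1))), Complex.normSq_nonneg _, by
      simp only [dH, hfix]
      rw [Complex.mul_conj]⟩)
  rw [h0] at hr
  have hz := hr1 (Complex.ofReal_eq_zero.1 hr.symm)
  refine Forms.ext fun c y _ => ?_
  obtain ⟨D, -, -, hD⟩ := h2 (k + 1)
  have hcy : dH a a c y = 0 := by rw [hz]; rfl
  simp only [dH, hfix] at hcy
  rw [Complex.mul_conj] at hcy
  have he : a.loc c y (ebt (k + 1)) = 0 :=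
    Complex.normSq_eq_zero.1 (Complex.ofReal_eq_zero.1 hcy)
  ext v
  have hav : a.loc c y v = 0 := by
    rw [hD _ (hg c y), he]
    simp
  rw [ha, hJ1] at hav
  have := (map_eq_zero (starRingEnd ℂ)).1 hav
  rw [this]
  rfl

end Pool.Agent.W19.FS.Ub1
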