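import Pool.Agent.W19.FS.P3

/-!
# FS-UB2: every `n`-form is the sum of a form in the first filtration step and a closed form
-/

open scoped Manifold ContDiff Topology
open MeasureTheory

noncomputable section

namespace Pool.Agent.W19.FS.Ub2

open Pool.Agent.W491.FS Pool.Agent.W19.FS.P3

universe u

theorem split (V : Type*) [AddCommGroup V] [Module ℂ V] (cd : InnerProductSpace.Core ℂ V)
    (B F : Submodule ℂ V) [FiniteDimensional ℂ F]
    (h : ∀ v, (∀ u ∈ F, cd.inner u v = 0) → v ∈ B) (v : V) :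
    ∃ b ∈ B, ∃ t, (∀ b' ∈ B, cd.inner t b' = 0) ∧ v = b + t := by
  let _ : NormedAddCommGroup V := cd.toNormedAddCommGroup
  let _ : InnerProductSpace ℂ V := InnerProductSpace.ofCore cd.toCore
  have hin : ∀ x y : V, inner ℂ x y = cd.inner x y := fun _ _ => rfl
  have hFB : ∀ v ∈ Fᗮ, v ∈ B := fun v hv => h v fun u hu => by
    rw [← hin]
    exact (Submodule.mem_orthogonal F v).1 hv u hu
  obtain ⟨u, hu, u', hu', rfl⟩ := F.exists_add_mem_mem_orthogonal v
  have : FiniteDimensional ℂ (B ⊓ F : Submodule ℂ V) :=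
    Submodule.finiteDimensional_inf_right B F
  obtain ⟨b, hb, t, ht, rfl⟩ := (B ⊓ F).exists_add_mem_mem_orthogonal u
  refine ⟨b + u', B.add_mem hb.1 (hFB _ hu'), t, fun b2 hb2 => ?_, by abel⟩
  have htF : t ∈ F := by
    have := F.sub_mem hu hb.2
    simpa using this
  obtain ⟨p, hp, q, hq, rfl⟩ := F.exists_add_mem_mem_orthogonal b2
  have hpB : p ∈ B := by
    have := B.sub_mem hb2 (hFB q hq)
    simpa using this
  rw [← hin, inner_add_right, (Submodule.mem_orthogonal F q).1 hq t htF,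
    (Submodule.mem_orthogonal' (B ⊓ F) t).1 ht p ⟨hpB, hp⟩, add_zero]

section forms

variable {n : ℕ} {X : Type u} [TopologicalSpace X] [ChartedSpace (CN n) X]

theorem prj_add (h : S_TYPE) {k p : ℕ} (a b : Alt n k) :
    prj k p (a + b) = prj k p a + prj k p b := by
  obtain ⟨P, hP⟩ := (h n k).1 p
  rw [← hP, ← hP, ← hP, map_add]

theorem prj_sub (h : S_TYPE) {k p : ℕ} (a b : Alt n k) :
    prj k p (a - b) = prj k p a - prj k p b := by
  obtain ⟨P, hP⟩ := (h n k).1 p
  rw [← hP, ← hP, ← hP, map_sub]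

theorem prj_zero (h : S_TYPE) {k p : ℕ} : prj k p (0 : Alt n k) = 0 := by
  obtain ⟨P, hP⟩ := (h n k).1 p
  rw [← hP, map_zero]

theorem prj_idem (h : S_TYPE) {k p : ℕ} (hp : p ≤ k) (a : Alt n k) :
    prj k p (prj k p a) = prj k p a :=
  (h n k).2.2.2.2.2.1 p (k - p) _ (by omega) ((h n k).2.2.1 p a hp)

/-- a component of a form -/
def cmp [IsManifold 𝓘(ℂ, CN n) ω X] (h : S_TYPE) {k : ℕ} (p : ℕ) (w : Forms n X k) :
    Forms n X k :=
  Forms.mk (fun c y => prj k p (w.loc c y))
    { smooth := fun c => by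
        obtain ⟨P, hP⟩ := (h n k).1 p
        have := P.contDiff.comp_contDiffOn (w.isForm.smooth c)
        exact this.congr fun y _ => (hP _).symm
      off := fun c y hy => by rw [w.isForm.off c y hy, prj_zero h]
      compat := fun c c' y hy => by
        rw [w.isForm.compat c c' y hy]
        exact (h n k).2.2.2.2.2.2.2 n _ (fun l v => fderiv_trans_smul c c' hy l v) p _ }

theorem cmp_type [IsManifold 𝓘(ℂ, CN n) ω X] (h : S_TYPE) {k : ℕ} (p : ℕ) (hp : p ≤ k)
    (w : Forms n X k) : cmp h p w ∈ TypeForms n X p (k - p) k :=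
  fun _ _ => (h n k).2.2.1 p _ hp

/-- the pairing density -/
theorem dH_add_right (h : S_TYPE) (a b b' : Forms n X n) : dH a (b + b') = dH a b + dH a b' := by
  funext c y
  simp only [dH, Forms.loc_add, Pi.add_apply, prj_add h, ContinuousAlternatingMap.add_apply]
  ring

theorem dH_smul_right (h : S_TYPE) (r : ℂ) (a b : Forms n X n) : dH a (r • b) = r • dH a b := by
  funext c y
  simp only [dH, Forms.loc_smul, Pi.smul_apply, (h n n).2.1, ContinuousAlternatingMap.smul_apply,
    smul_eq_mul]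
  ring

theorem dH_add_left (a a' b : Forms n X n) : dH (a + a') b = dH a b + dH a' b := by
  funext c y
  simp only [dH, Forms.loc_add, Pi.add_apply, ContinuousAlternatingMap.add_apply, map_add]
  ring

theorem dH_smul_left (r : ℂ) (a b : Forms n X n) :
    dH (r • a) b = starRingEnd ℂ r • dH a b := by
  funext c y
  simp only [dH, Forms.loc_smul, Pi.smul_apply, ContinuousAlternatingMap.smul_apply,
    smul_eq_mul, map_mul]
  ring

end forms

theorem main (h1 : S_TYPE) (h2 : S_DET) (h3 : S_INT.{u}) (h4 : S_FIL.{u}) (h5 : S_P0.{u})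
    (h6 : S_P2.{u}) (h7 : S_P3.{u}) : S_UB2.{u} := by
  intro k X _ _ _ _ _ w
  obtain ⟨I, hI⟩ := h3 (k + 1) X
  obtain ⟨M, φ, hφt, hφ⟩ := h7 k X I hI
  let V := TypeForms (k + 1) X 0 (k + 1) (k + 1)
  have hfix : ∀ a : Forms (k + 1) X (k + 1), a ∈ V → ∀ c y, prj (k + 1) 0 (a.loc c y) = a.loc c y :=
    fun a ha c y => (h1 (k + 1) (k + 1)).2.2.2.2.2.1 0 (k + 1) _ (by omega) (ha c y)
  -- additivity of the pairing
  have hdens : ∀ a b, a ∈ V → IsDens (k + 1) X (dH a b) := fun a b ha => h5 (k + 1) X a b ha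
  have add_r : ∀ a b b', a ∈ V → I (dH a (b + b')) = I (dH a b) + I (dH a b') := by
    intro a b b' ha
    rw [dH_add_right h1, hI.add _ _ (hdens a b ha) (hdens a b' ha)]
  have smul_r : ∀ (r : ℂ) a b, a ∈ V → I (dH a (r • b)) = r * I (dH a b) := by
    intro r a b ha
    rw [dH_smul_right h1, hI.smul _ _ (hdens a b ha)]
  have add_l : ∀ a a' b, a ∈ V → a' ∈ V → I (dH (a + a') b) = I (dH a b) + I (dH a' b) := by
    intro a a' b ha ha'
    rw [dH_add_left, hI.add _ _ (hdens a b ha) (hdens a' b ha')]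
  have smul_l : ∀ (r : ℂ) a b, a ∈ V → I (dH (r • a) b) = starRingEnd ℂ r * I (dH a b) := by
    intro r a b ha
    rw [dH_smul_left, hI.smul _ _ (hdens a b ha)]
  have hpos : ∀ a, a ∈ V → ∃ r : ℝ, 0 ≤ r ∧ I (dH a a) = r ∧ (r = 0 → a = 0) := by
    intro a ha
    obtain ⟨r, hr0, hr, hr1⟩ := hI.pos (dH a a) (hdens a a ha) (fun c y =>
      ⟨Complex.normSq (a.loc c y (ebt (k + 1))), Complex.normSq_nonneg _, by
        simp only [dH, hfix a ha]
        rw [Complex.mul_conj]⟩)
    refine ⟨r, hr0, hr, fun h0 => ?_⟩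
    have hz := hr1 h0
    refine Forms.ext fun c y _ => ?_
    obtain ⟨D, -, -, hD⟩ := h2 (k + 1)
    have hcy : dH a a c y = 0 := by rw [hz]; rfl
    simp only [dH, hfix a ha] at hcy
    rw [Complex.mul_conj] at hcy
    have h0 : a.loc c y (ebt (k + 1)) = 0 := by
      have := Complex.ofReal_eq_zero.1 hcy
      exact Complex.normSq_eq_zero.1 this
    rw [hD _ (ha c y), h0]
    ext v
    simp
  have him : ∀ a, a ∈ V → (I (dH a a)).im = 0 := by
    intro a ha
    obtain ⟨r, -, hr, -⟩ := hpos a ha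
    rw [hr, Complex.ofReal_im]
  have hsymm : ∀ a b, a ∈ V → b ∈ V → starRingEnd ℂ (I (dH b a)) = I (dH a b) := by
    intro a b ha hb
    have e1 := him (a + b) (V.add_mem ha hb)
    rw [add_l a b _ ha hb, add_r a a b ha, add_r b a b hb] at e1
    have hib : Complex.I • b ∈ V := V.smul_mem _ hb
    have e2 := him (a + Complex.I • b) (V.add_mem ha hib)
    rw [add_l a _ _ ha hib, add_r a a _ ha, smul_l _ _ _ hb, smul_r _ a _ ha,
      add_r b a _ hb, smul_r _ b _ hb] at e2
    have ea := him a ha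
    have eb := him b hb
    simp only [Complex.add_im, Complex.mul_im, Complex.mul_re, Complex.add_re, Complex.I_re,
      Complex.I_im, Complex.conj_re, Complex.conj_im, Complex.conj_I, Complex.neg_re,
      Complex.neg_im] at e1 e2
    apply Complex.ext
    · simp only [Complex.conj_re]
      linarith
    · simp only [Complex.conj_im]
      linarith
  let cd : InnerProductSpace.Core ℂ V :=
    { inner := fun a b => I (dH a.1 b.1)
      conj_inner_symm := fun a b => hsymm a.1 b.1 a.2 b.2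
      re_inner_nonneg := fun a => by
        obtain ⟨r, hr0, hr, -⟩ := hpos a.1 a.2
        show 0 ≤ (I (dH a.1 a.1)).re
        rw [hr, Complex.ofReal_re]
        exact hr0
      add_left := fun a b c => add_l a.1 b.1 c.1 a.2 b.2
      smul_left := fun a b r => smul_l r a.1 b.1 a.2
      definite := fun a ha => by
        obtain ⟨r, hr0, hr, h0⟩ := hpos a.1 a.2
        have ha' : I (dH a.1 a.1) = 0 := ha
        rw [hr] at ha'
        exact Subtype.ext (h0 (Complex.ofReal_eq_zero.1 ha')) }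
  have hcd : ∀ a b : V, cd.inner a b = I (dH a.1 b.1) := fun _ _ => rfl
  clear_value cd
  let B : Submodule ℂ V := (Fil (k + 1) X 1 (k + 1) ⊔ LinearMap.range (extD (k + 1) X k)).comap
    V.subtype
  have hB : ∀ b : V, b ∈ B ↔ ∃ β, b.1 - extD (k + 1) X k β ∈ Fil (k + 1) X 1 (k + 1) := by
    intro b
    show b.1 ∈ Fil (k + 1) X 1 (k + 1) ⊔ LinearMap.range (extD (k + 1) X k) ↔ _
    rw [Submodule.mem_sup]
    constructor
    · rintro ⟨y, hy, _, ⟨β, rfl⟩, he⟩
      exact ⟨β, by rw [← he]; simpa using hy⟩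
    · rintro ⟨β, hβ⟩
      exact ⟨_, hβ, _, ⟨β, rfl⟩, by abel⟩
  let F : Submodule ℂ V := Submodule.span ℂ (Set.range fun m : Fin M => (⟨φ m, hφt m⟩ : V))
  have hFfin : FiniteDimensional ℂ F :=
    FiniteDimensional.span_of_finite ℂ (Set.finite_range _)
  have hsplit := split V cd B F (fun v hv => (hB v).2 (hφ v.1 v.2 fun m => by
    have h0 := hv ⟨φ m, hφt m⟩ (Submodule.subset_span ⟨m, rfl⟩)
    rw [hcd] at h0
    exact h0))
  -- the component of `w`
  have hcmpV : ∀ a : Forms (k + 1) X (k + 1), cmp h1 0 a ∈ V := fun a => by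
    have := cmp_type h1 0 (Nat.zero_le (k + 1)) a
    simpa using this
  have hcmpF : ∀ a : Forms (k + 1) X (k + 1), a - cmp h1 0 a ∈ Fil (k + 1) X 1 (k + 1) := by
    intro a
    rw [h4]
    intro p' hp' c y
    have hp0 : p' = 0 := by omega
    subst hp0
    rw [Forms.loc_sub, Pi.sub_apply, Pi.sub_apply, prj_sub h1]
    simp only [cmp, Forms.loc_mk]
    rw [prj_idem h1 (Nat.zero_le _), sub_self]
  obtain ⟨b, hb, t, ht, hbt⟩ := hsplit ⟨cmp h1 0 w, hcmpV w⟩
  have hbt' : cmp h1 0 w = b.1 + t.1 := by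
    have h := congrArg V.subtype hbt
    rw [map_add] at h
    exact h
  obtain ⟨β, hβ⟩ := (hB b).1 hb
  have htd : extD (k + 1) X (k + 1) t.1 = 0 := by
    refine h6 k X I hI t.1 t.2 fun γ => ?_
    have hmem : (⟨cmp h1 0 (extD (k + 1) X k γ), hcmpV _⟩ : V) ∈ B := by
      rw [hB]
      refine ⟨γ, ?_⟩
      have := (Fil (k + 1) X 1 (k + 1)).neg_mem (hcmpF (extD (k + 1) X k γ))
      rwa [neg_sub] at this
    have h0 := ht _ hmem
    rw [hcd] at h0
    rw [← h0]
    congr 1
    funext c y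
    simp only [dH, cmp, Forms.loc_mk]
    rw [prj_idem h1 (Nat.zero_le _)]
  refine ⟨t.1 + extD (k + 1) X k β, ?_, ?_⟩
  · rw [map_add, htd, extD_extD, add_zero]
  · have : w - (t.1 + extD (k + 1) X k β) = (w - cmp h1 0 w) + (b.1 - extD (k + 1) X k β) := by
      rw [hbt']
      abel
    rw [this]
    exact Submodule.add_mem _ (hcmpF w) hβ

end Pool.Agent.W19.FS.Ub2
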